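import Mathlib

/-! The Bessel functions `J₀` and `J₁` through their integrals. -/

set_option autoImplicit false

open MeasureTheory Real Set Filter Topology

namespace Pool.Agent.Helper854_QC

/-- `J₀` -/
noncomputable def j0 (u : ℝ) : ℝ := (2 / π) * ∫ θ in (0 : ℝ)..(π / 2), cos (u * sin θ)

/-- `J₁` -/
noncomputable def j1 (u : ℝ) : ℝ := (2 / π) * ∫ θ in (0 : ℝ)..(π / 2), sin θ * sin (u * sin θ)

lemma j0_deriv (u : ℝ) : HasDerivAt j0 (-j1 u) u := by
  have h := (intervalIntegral.hasDerivAt_integral_of_dominated_loc_of_deriv_le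
    (μ := volume) (a := 0) (b := π / 2) (F := fun u θ => cos (u * sin θ))
    (F' := fun u θ => -(sin θ * sin (u * sin θ))) (x₀ := u) (s := univ) (bound := fun _ => 1)
    univ_mem ?_ ?_ ?_ ?_ ?_ ?_).2
  · have h2 := h.const_mul (2 / π)
    refine h2.congr_deriv ?_
    rw [intervalIntegral.integral_neg, j1]; ring
  · exact Eventually.of_forall fun v => (by fun_prop : Continuous fun θ => cos (v * sin θ)).aestronglyMeasurable
  · exact (by fun_prop : Continuous fun θ => cos (u * sin θ)).intervalIntegrable _ _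
  · exact (by fun_prop : Continuous fun θ => -(sin θ * sin (u * sin θ))).aestronglyMeasurable
  · refine Eventually.of_forall fun θ _ v _ => ?_
    rw [norm_neg, norm_mul]
    exact mul_le_one₀ (by simpa using abs_sin_le_one θ) (norm_nonneg _)
      (by simpa using abs_sin_le_one _)
  · exact intervalIntegrable_const
  · refine Eventually.of_forall fun θ _ v _ => ?_
    have h1 : HasDerivAt (fun v : ℝ => v * sin θ) (1 * sin θ) v := (hasDerivAt_id v).mul_const _
    exact (h1.cos).congr_deriv (by ring)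

lemma int_le {f : ℝ → ℝ} {C a b : ℝ} (hab : a ≤ b) (h : ∀ θ ∈ Ioc a b, |f θ| ≤ C) :
    |∫ θ in a..b, f θ| ≤ C * (b - a) := by
  have := intervalIntegral.norm_integral_le_of_norm_le_const (a := a) (b := b) (f := f) (C := C)
    (fun θ hθ => by rw [uIoc_of_le hab] at hθ; exact h θ hθ)
  rwa [abs_of_nonneg (by linarith : 0 ≤ b - a), Real.norm_eq_abs] at this

lemma j0_le_one (u : ℝ) : |j0 u| ≤ 1 := by
  have h1 : |∫ θ in (0 : ℝ)..(π / 2), cos (u * sin θ)| ≤ 1 * (π / 2 - 0) :=
    int_le (by positivity) fun θ _ => abs_cos_le_one _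
  rw [j0, abs_mul, abs_of_pos (by positivity)]
  calc 2 / π * |∫ θ in (0 : ℝ)..(π / 2), cos (u * sin θ)| ≤ 2 / π * (1 * (π / 2 - 0)) := by gcongr
    _ = 1 := by field_simp; ring

lemma cos_pos' {θ : ℝ} (h0 : 0 ≤ θ) (h1 : θ < π / 2) : 0 < cos θ :=
  cos_pos_of_mem_Ioo ⟨by linarith, h1⟩

/-- the main part of the oscillatory integrals -/
lemma osc {u θ₀ : ℝ} (hu : 0 < u) (h0 : 0 ≤ θ₀) (h1 : θ₀ < π / 2) :
    |∫ θ in (0 : ℝ)..θ₀, cos (u * sin θ)| ≤ 2 / (u * cos θ₀) ∧
    |∫ θ in (0 : ℝ)..θ₀, sin θ * sin (u * sin θ)| ≤ 2 / (u * cos θ₀) := by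
  have hc : ∀ θ ∈ Icc 0 θ₀, 0 < cos θ := fun θ hθ => cos_pos' hθ.1 (hθ.2.trans_lt h1)
  have hc0 : 0 < cos θ₀ := hc θ₀ ⟨h0, le_rfl⟩
  have huI : uIcc 0 θ₀ = Icc 0 θ₀ := uIcc_of_le h0
  -- the two amplitude functions
  have ca : ContinuousOn (fun θ => sin θ / (u * cos θ ^ 2)) (uIcc 0 θ₀) := by
    rw [huI]
    refine ContinuousOn.div (by fun_prop) (by fun_prop) fun θ hθ => ?_
    have := hc θ hθ
    positivity
  have cb : ContinuousOn (fun θ => 1 / (u * cos θ ^ 2)) (uIcc 0 θ₀) := by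
    rw [huI]
    refine ContinuousOn.div (by fun_prop) (by fun_prop) fun θ hθ => ?_
    have := hc θ hθ
    positivity
  have ia : ∫ θ in (0 : ℝ)..θ₀, sin θ / (u * cos θ ^ 2) = 1 / (u * cos θ₀) - 1 / (u * cos 0) := by
    refine intervalIntegral.integral_eq_sub_of_hasDerivAt (f := fun θ => 1 / (u * cos θ))
      (fun θ hθ => ?_) ca.intervalIntegrable
    rw [huI] at hθ
    have h2 := hc θ hθ
    have h3 : HasDerivAt (fun θ => u * cos θ) (u * (-sin θ)) θ := (hasDerivAt_cos θ).const_mul u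
    have h4 := (hasDerivAt_const θ (1 : ℝ)).div h3 (by positivity)
    refine h4.congr_deriv ?_
    field_simp
    ring
  have ib : ∫ θ in (0 : ℝ)..θ₀, 1 / (u * cos θ ^ 2) = tan θ₀ / u - tan 0 / u := by
    refine intervalIntegral.integral_eq_sub_of_hasDerivAt (f := fun θ => tan θ / u)
      (fun θ hθ => ?_) cb.intervalIntegrable
    rw [huI] at hθ
    have h2 := hc θ hθ
    refine ((hasDerivAt_tan h2.ne').div_const u).congr_deriv ?_
    field_simp
  constructor
  · have cF : ContinuousOn (fun θ => sin (u * sin θ) * (sin θ / (u * cos θ ^ 2))) (uIcc 0 θ₀) :=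
      ContinuousOn.mul (by fun_prop) ca
    have h2 : ∫ θ in (0 : ℝ)..θ₀, (cos (u * sin θ) + sin (u * sin θ) * (sin θ / (u * cos θ ^ 2)))
        = sin (u * sin θ₀) / (u * cos θ₀) - sin (u * sin 0) / (u * cos 0) := by
      refine intervalIntegral.integral_eq_sub_of_hasDerivAt
        (f := fun θ => sin (u * sin θ) / (u * cos θ)) (fun θ hθ => ?_) ?_
      · rw [huI] at hθ
        have h2 := hc θ hθ
        have h3 : HasDerivAt (fun θ => u * cos θ) (u * (-sin θ)) θ := (hasDerivAt_cos θ).const_mul u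
        have h4 : HasDerivAt (fun θ => sin (u * sin θ)) (cos (u * sin θ) * (u * cos θ)) θ :=
          ((hasDerivAt_sin θ).const_mul u).sin
        refine (h4.div h3 (by positivity)).congr_deriv ?_
        field_simp
        ring
      · refine (ContinuousOn.add (by fun_prop) cF).intervalIntegrable
    rw [intervalIntegral.integral_add ((by fun_prop : Continuous fun θ =>
      cos (u * sin θ)).intervalIntegrable _ _) cF.intervalIntegrable] at h2
    have h3 : |∫ θ in (0 : ℝ)..θ₀, sin (u * sin θ) * (sin θ / (u * cos θ ^ 2))|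
        ≤ 1 / (u * cos θ₀) := by
      have h4 : |∫ θ in (0 : ℝ)..θ₀, sin (u * sin θ) * (sin θ / (u * cos θ ^ 2))|
          ≤ ∫ θ in (0 : ℝ)..θ₀, sin θ / (u * cos θ ^ 2) := by
        rw [← Real.norm_eq_abs]
        refine intervalIntegral.norm_integral_le_of_norm_le h0 ?_ ca.intervalIntegrable
        refine Eventually.of_forall fun θ hθ => ?_
        have h5 := hc θ ⟨hθ.1.le, hθ.2⟩
        have h6 : 0 ≤ sin θ := sin_nonneg_of_nonneg_of_le_pi hθ.1.le (by linarith [hθ.2])
        rw [norm_mul, Real.norm_eq_abs, Real.norm_eq_abs,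
          abs_of_nonneg (by positivity : 0 ≤ sin θ / (u * cos θ ^ 2))]
        exact mul_le_of_le_one_left (by positivity) (abs_sin_le_one _)
      refine h4.trans ?_
      rw [ia, cos_zero]
      have : 0 < 1 / (u * 1) := by positivity
      linarith
    have h4 : |sin (u * sin θ₀) / (u * cos θ₀)| ≤ 1 / (u * cos θ₀) := by
      rw [abs_div, abs_of_pos (by positivity : 0 < u * cos θ₀)]
      gcongr
      exact abs_sin_le_one _
    have h5 : sin (u * sin 0) / (u * cos 0) = 0 := by simp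
    rw [h5, sub_zero] at h2
    have h6 : ∫ θ in (0 : ℝ)..θ₀, cos (u * sin θ) = sin (u * sin θ₀) / (u * cos θ₀)
        - ∫ θ in (0 : ℝ)..θ₀, sin (u * sin θ) * (sin θ / (u * cos θ ^ 2)) := by linarith
    rw [h6]
    refine (abs_sub _ _).trans ?_
    have e : 2 / (u * cos θ₀) = 1 / (u * cos θ₀) + 1 / (u * cos θ₀) := by ring
    rw [e]
    exact add_le_add h4 h3
  · have cF : ContinuousOn (fun θ => cos (u * sin θ) * (1 / (u * cos θ ^ 2))) (uIcc 0 θ₀) :=
      ContinuousOn.mul (by fun_prop) cb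
    have h2 : ∫ θ in (0 : ℝ)..θ₀, (sin θ * sin (u * sin θ) - cos (u * sin θ) * (1 / (u * cos θ ^ 2)))
        = -(cos (u * sin θ₀) * tan θ₀ / u) - -(cos (u * sin 0) * tan 0 / u) := by
      refine intervalIntegral.integral_eq_sub_of_hasDerivAt
        (f := fun θ => -(cos (u * sin θ) * tan θ / u)) (fun θ hθ => ?_) ?_
      · rw [huI] at hθ
        have h2 := hc θ hθ
        have h4 : HasDerivAt (fun θ => cos (u * sin θ)) (-sin (u * sin θ) * (u * cos θ)) θ :=
          ((hasDerivAt_sin θ).const_mul u).cos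
        refine (((h4.mul (hasDerivAt_tan h2.ne')).div_const u).neg).congr_deriv ?_
        rw [tan_eq_sin_div_cos]
        field_simp
        ring
      · refine (ContinuousOn.sub (by fun_prop) cF).intervalIntegrable
    rw [intervalIntegral.integral_sub ((by fun_prop : Continuous fun θ =>
      sin θ * sin (u * sin θ)).intervalIntegrable _ _) cF.intervalIntegrable] at h2
    have ht : tan θ₀ / u ≤ 1 / (u * cos θ₀) := by
      rw [tan_eq_sin_div_cos, div_div, mul_comm (cos θ₀)]
      gcongr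
      exact sin_le_one _
    have ht0 : 0 ≤ tan θ₀ / u := by
      rw [tan_eq_sin_div_cos]
      have : 0 ≤ sin θ₀ := sin_nonneg_of_nonneg_of_le_pi h0 (by linarith)
      positivity
    have h3 : |∫ θ in (0 : ℝ)..θ₀, cos (u * sin θ) * (1 / (u * cos θ ^ 2))|
        ≤ 1 / (u * cos θ₀) := by
      have h4 : |∫ θ in (0 : ℝ)..θ₀, cos (u * sin θ) * (1 / (u * cos θ ^ 2))|
          ≤ ∫ θ in (0 : ℝ)..θ₀, 1 / (u * cos θ ^ 2) := by
        rw [← Real.norm_eq_abs]
        refine intervalIntegral.norm_integral_le_of_norm_le h0 ?_ cb.intervalIntegrable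
        refine Eventually.of_forall fun θ hθ => ?_
        have h5 := hc θ ⟨hθ.1.le, hθ.2⟩
        rw [norm_mul, Real.norm_eq_abs, Real.norm_eq_abs,
          abs_of_nonneg (by positivity : 0 ≤ 1 / (u * cos θ ^ 2))]
        exact mul_le_of_le_one_left (by positivity) (abs_cos_le_one _)
      refine h4.trans ?_
      rw [ib, tan_zero, zero_div, sub_zero]
      exact ht
    have h4 : |cos (u * sin θ₀) * tan θ₀ / u| ≤ 1 / (u * cos θ₀) := by
      have e : cos (u * sin θ₀) * tan θ₀ / u = cos (u * sin θ₀) * (tan θ₀ / u) := by ring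
      rw [e, abs_mul, abs_of_nonneg ht0]
      exact (mul_le_of_le_one_left ht0 (abs_cos_le_one _)).trans ht
    have h6 : ∫ θ in (0 : ℝ)..θ₀, sin θ * sin (u * sin θ) = -(cos (u * sin θ₀) * tan θ₀ / u)
        + ∫ θ in (0 : ℝ)..θ₀, cos (u * sin θ) * (1 / (u * cos θ ^ 2)) := by
      rw [tan_zero] at h2
      have : -(cos (u * sin 0) * 0 / u) = 0 := by ring
      rw [this] at h2
      linarith
    rw [h6]
    refine (abs_add_le _ _).trans ?_
    rw [abs_neg]
    have e : 2 / (u * cos θ₀) = 1 / (u * cos θ₀) + 1 / (u * cos θ₀) := by ring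
    rw [e]
    exact add_le_add h4 h3

lemma tail_le {f : ℝ → ℝ} (hf : Continuous f) (h1 : ∀ θ, |f θ| ≤ 1) {u : ℝ} (hu : 0 < u)
    (h : ∀ θ₀, 0 ≤ θ₀ → θ₀ < π / 2 → |∫ θ in (0 : ℝ)..θ₀, f θ| ≤ 2 / (u * cos θ₀)) :
    |(2 / π) * ∫ θ in (0 : ℝ)..(π / 2), f θ| ≤ 3 / √u := by
  have hpi := pi_pos
  have hsu : 0 < √u := sqrt_pos.2 hu
  rw [abs_mul, abs_of_pos (by positivity : 0 < 2 / π)]
  have hpi3 := pi_gt_three
  rcases le_total u 1 with hc | hc
  · have h2 : |∫ θ in (0 : ℝ)..(π / 2), f θ| ≤ 1 * (π / 2 - 0) :=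
      int_le (by positivity) fun θ _ => h1 θ
    have h3 : √u ≤ 1 := by rw [sqrt_le_one]; exact hc
    calc 2 / π * |∫ θ in (0 : ℝ)..(π / 2), f θ| ≤ 2 / π * (1 * (π / 2 - 0)) := by gcongr
      _ = 1 := by field_simp; ring
      _ ≤ 3 / √u := by rw [le_div_iff₀ hsu]; linarith
  · set ε : ℝ := 1 / √u with hε
    have hε0 : 0 < ε := by positivity
    have hs1 : 1 ≤ √u := by rw [one_le_sqrt]; exact hc
    have hε1 : ε ≤ 1 := by rw [hε, div_le_one hsu]; exact hs1
    set θ₀ : ℝ := π / 2 - ε with hθ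
    have h2 := h θ₀ (by rw [hθ]; linarith) (by rw [hθ]; linarith)
    have h3 : cos θ₀ = sin ε := by rw [hθ, cos_pi_div_two_sub]
    have h4 : 2 / π * ε ≤ sin ε := mul_le_sin hε0.le (by linarith)
    have h5 : 2 / (u * cos θ₀) ≤ π * ε := by
      rw [h3]
      have hse : 0 < sin ε := lt_of_lt_of_le (by positivity) h4
      rw [div_le_iff₀ (by positivity)]
      have h6 : u * ε * ε = 1 := by
        rw [hε]
        have : √u * √u = u := mul_self_sqrt hu.le
        field_simp
        nlinarith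
      calc (2 : ℝ) = π * ε * (u * (2 / π * ε)) := by
            field_simp
            nlinarith
        _ ≤ π * ε * (u * sin ε) := by gcongr
    have h6 : |∫ θ in θ₀..(π / 2), f θ| ≤ 1 * (π / 2 - θ₀) :=
      int_le (by rw [hθ]; linarith) fun θ _ => h1 θ
    have h7 : ∫ θ in (0 : ℝ)..(π / 2), f θ = (∫ θ in (0 : ℝ)..θ₀, f θ) + ∫ θ in θ₀..(π / 2), f θ :=
      (intervalIntegral.integral_add_adjacent_intervals (hf.intervalIntegrable _ _)
        (hf.intervalIntegrable _ _)).symm
    have h8 : |∫ θ in (0 : ℝ)..(π / 2), f θ| ≤ (π + 1) * ε := by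
      rw [h7]
      refine (abs_add_le _ _).trans ?_
      have : π / 2 - θ₀ = ε := by rw [hθ]; ring
      rw [this] at h6
      linarith
    calc 2 / π * |∫ θ in (0 : ℝ)..(π / 2), f θ| ≤ 2 / π * ((π + 1) * ε) := by gcongr
      _ = (2 + 2 / π) * ε := by field_simp
      _ ≤ 3 * ε := by
          have : 2 / π ≤ 1 := by rw [div_le_one hpi]; linarith
          gcongr; linarith
      _ = 3 / √u := by rw [hε]; ring

lemma j0_decay {u : ℝ} (hu : 0 < u) : |j0 u| ≤ 3 / √u :=
  tail_le (by fun_prop) (fun θ => abs_cos_le_one _) hu fun _ h0 h1 => (osc hu h0 h1).1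

lemma j1_decay {u : ℝ} (hu : 0 < u) : |j1 u| ≤ 3 / √u := by
  refine tail_le (f := fun θ => sin θ * sin (u * sin θ)) (by fun_prop) (fun θ => ?_) hu
    fun _ h0 h1 => (osc hu h0 h1).2
  rw [abs_mul]
  exact mul_le_one₀ (abs_sin_le_one θ) (abs_nonneg _) (abs_sin_le_one _)

/-- the second formula for `J₁` -/
lemma j1_eq (u : ℝ) : j1 u = (2 / π) * (u * ∫ θ in (0 : ℝ)..(π / 2), cos θ ^ 2 * cos (u * sin θ)) := by
  have h : ∫ θ in (0 : ℝ)..(π / 2), (sin θ * sin (u * sin θ) - u * (cos θ ^ 2 * cos (u * sin θ)))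
      = -(cos (π / 2) * sin (u * sin (π / 2))) - -(cos 0 * sin (u * sin 0)) := by
    refine intervalIntegral.integral_eq_sub_of_hasDerivAt
      (f := fun θ => -(cos θ * sin (u * sin θ))) (fun θ _ => ?_)
      ((by fun_prop : Continuous fun θ => sin θ * sin (u * sin θ) -
        u * (cos θ ^ 2 * cos (u * sin θ))).intervalIntegrable _ _)
    have h4 : HasDerivAt (fun θ => sin (u * sin θ)) (cos (u * sin θ) * (u * cos θ)) θ :=
      ((hasDerivAt_sin θ).const_mul u).sin
    refine (((hasDerivAt_cos θ).mul h4).neg).congr_deriv ?_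
    ring
  rw [intervalIntegral.integral_sub ((by fun_prop : Continuous fun θ =>
      sin θ * sin (u * sin θ)).intervalIntegrable _ _) ((by fun_prop : Continuous fun θ =>
      u * (cos θ ^ 2 * cos (u * sin θ))).intervalIntegrable _ _),
    intervalIntegral.integral_const_mul, cos_pi_div_two, sin_zero, mul_zero, sin_zero] at h
  rw [j1]
  congr 1
  linarith

end Pool.Agent.Helper854_QC
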