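import Mathlib
import Pool.Agent.Helper854_QC.A

/-! The kernel of the disc multiplier. -/

set_option autoImplicit false

open MeasureTheory Real Set Filter Topology
open scoped ENNReal NNReal RealInnerProductSpace

namespace Pool.Agent.Helper854_QC

/-- the plane -/
abbrev E2 := EuclideanSpace ℝ (Fin 2)

/-- coordinates in an orthonormal basis -/
noncomputable def ceq (b : OrthonormalBasis (Fin 2) ℝ E2) : E2 ≃ᵐ ℝ × ℝ :=
  b.measurableEquiv.trans ((MeasurableEquiv.toLp 2 (Fin 2 → ℝ)).symm.trans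
    (MeasurableEquiv.finTwoArrow (α := ℝ)))

lemma ceq_apply (b : OrthonormalBasis (Fin 2) ℝ E2) (y : E2) :
    ceq b y = (⟪b 0, y⟫, ⟪b 1, y⟫) := by
  have h0 : b.repr y 0 = ⟪b 0, y⟫ := b.repr_apply_apply y 0
  have h1 : b.repr y 1 = ⟪b 1, y⟫ := b.repr_apply_apply y 1
  rw [← h0, ← h1]
  rfl

lemma ceq_mp (b : OrthonormalBasis (Fin 2) ℝ E2) : MeasurePreserving (ceq b) volume volume :=
  ((volume_preserving_finTwoArrow ℝ).comp
    (EuclideanSpace.volume_preserving_symm_measurableEquiv_toLp (Fin 2))).comp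
    b.measurePreserving_measurableEquiv

lemma norm_sq_coord (b : OrthonormalBasis (Fin 2) ℝ E2) (y : E2) :
    ‖y‖ ^ 2 = ⟪b 0, y⟫ ^ 2 + ⟪b 1, y⟫ ^ 2 := by
  have h := b.repr.norm_map y
  rw [← h, EuclideanSpace.norm_sq_eq, Fin.sum_univ_two, b.repr_apply_apply, b.repr_apply_apply,
    Real.norm_eq_abs, Real.norm_eq_abs, sq_abs, sq_abs]

lemma exists_basis {e : E2} (he : ‖e‖ = 1) : ∃ b : OrthonormalBasis (Fin 2) ℝ E2, b 0 = e := by
  have hv : Orthonormal ℝ (({0} : Set (Fin 2)).domRestrict (fun _ : Fin 2 => e)) := by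
    refine ⟨fun i => he, fun i j hij => ?_⟩
    exact absurd (Subtype.ext (by rw [mem_singleton_iff.1 i.2, mem_singleton_iff.1 j.2])) hij
  obtain ⟨b, hb⟩ := hv.exists_orthonormalBasis_extension_of_card_eq (by simp)
  exact ⟨b, hb 0 rfl⟩

/-- the kernel of the disc multiplier -/
noncomputable def Dk (R : ℝ) (x : E2) : ℂ :=
  ∫ ξ in Metric.closedBall (0 : E2) R, Complex.exp (2 * π * Complex.I * ((⟪x, ξ⟫ : ℝ) : ℂ))

/-- its profile -/
noncomputable def gk (R r : ℝ) : ℝ := R * j1 (2 * π * R * r) / r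

lemma Dk_eq {R : ℝ} (hR : 0 < R) {x : E2} (hx : x ≠ 0) : Dk R x = ((gk R ‖x‖ : ℝ) : ℂ) := by
  have hx0 : 0 < ‖x‖ := norm_pos_iff.2 hx
  obtain ⟨b, hb⟩ := exists_basis (e := ‖x‖⁻¹ • x) (by
    rw [norm_smul, norm_inv, norm_norm, inv_mul_cancel₀ hx0.ne'])
  have hin : ∀ ξ : E2, ⟪x, ξ⟫ = ‖x‖ * ⟪b 0, ξ⟫ := by
    intro ξ
    rw [hb, real_inner_smul_left, ← mul_assoc, mul_inv_cancel₀ hx0.ne', one_mul]
  set s : ℝ := ‖x‖ with hs
  -- pass to coordinates
  set F : ℝ × ℝ → ℂ := {z : ℝ × ℝ | z.1 ^ 2 + z.2 ^ 2 ≤ R ^ 2}.indicator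
    (fun z => Complex.exp (2 * π * Complex.I * ((s * z.1 : ℝ) : ℂ))) with hF
  have hSm : MeasurableSet {z : ℝ × ℝ | z.1 ^ 2 + z.2 ^ 2 ≤ R ^ 2} :=
    (isClosed_le (by fun_prop) (by fun_prop)).measurableSet
  have e1 : Dk R x = ∫ z, F z := by
    rw [← (ceq_mp b).integral_comp' F, Dk, ← integral_indicator Metric.isClosed_closedBall.measurableSet]
    refine integral_congr_ae (Eventually.of_forall fun ξ => ?_)
    have hiff : ξ ∈ Metric.closedBall (0 : E2) R ↔
        ceq b ξ ∈ {z : ℝ × ℝ | z.1 ^ 2 + z.2 ^ 2 ≤ R ^ 2} := by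
      rw [ceq_apply, mem_closedBall_zero_iff, mem_ofPred_eq, ← norm_sq_coord b ξ]
      exact (sq_le_sq₀ (norm_nonneg _) hR.le).symm
    simp only [hF]
    by_cases h : ξ ∈ Metric.closedBall (0 : E2) R
    · rw [indicator_of_mem h, indicator_of_mem (hiff.1 h), ceq_apply, hin ξ]
    · rw [indicator_of_notMem h, indicator_of_notMem (fun h' => h (hiff.2 h'))]
  have hfin : volume {z : ℝ × ℝ | z.1 ^ 2 + z.2 ^ 2 ≤ R ^ 2} < ⊤ := by
    refine lt_of_le_of_lt (measure_mono (t := Icc (-R) R ×ˢ Icc (-R) R) ?_)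
      (isCompact_Icc.prod isCompact_Icc).measure_lt_top
    rintro ⟨p, q⟩ h
    have h' : p ^ 2 + q ^ 2 ≤ R ^ 2 := h
    refine ⟨abs_le.1 (abs_le_of_sq_le_sq ?_ hR.le), abs_le.1 (abs_le_of_sq_le_sq ?_ hR.le)⟩
    · simp only; nlinarith [sq_nonneg q]
    · simp only; nlinarith [sq_nonneg p]
  have hFi : Integrable F := by
    rw [hF, integrable_indicator_iff hSm]
    refine Measure.integrableOn_of_bounded (M := 1) hfin.ne ?_ ?_
    · exact (by fun_prop : Continuous fun z : ℝ × ℝ =>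
        Complex.exp (2 * π * Complex.I * ((s * z.1 : ℝ) : ℂ))).aestronglyMeasurable
    · refine Eventually.of_forall fun z => ?_
      rw [show 2 * (π : ℂ) * Complex.I * ((s * z.1 : ℝ) : ℂ)
        = ((2 * π * (s * z.1) : ℝ) : ℂ) * Complex.I by push_cast; ring]
      exact (Complex.norm_exp_ofReal_mul_I _).le
  have e2 : ∫ z, F z = ∫ a : ℝ, ((2 * √(R ^ 2 - a ^ 2) : ℝ) : ℂ) *
      Complex.exp (2 * π * Complex.I * ((s * a : ℝ) : ℂ)) := by
    rw [Measure.volume_eq_prod, integral_prod _ hFi]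
    refine integral_congr_ae (Eventually.of_forall fun a => ?_)
    simp only [hF]
    have h1 : (fun q : ℝ => {z : ℝ × ℝ | z.1 ^ 2 + z.2 ^ 2 ≤ R ^ 2}.indicator
        (fun z => Complex.exp (2 * π * Complex.I * ((s * z.1 : ℝ) : ℂ))) (a, q))
        = {q : ℝ | a ^ 2 + q ^ 2 ≤ R ^ 2}.indicator
          (fun _ => Complex.exp (2 * π * Complex.I * ((s * a : ℝ) : ℂ))) := by
      funext q; rfl
    rw [h1, integral_indicator (isClosed_le (by fun_prop) (by fun_prop)).measurableSet,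
      setIntegral_const, Complex.real_smul]
    congr 2
    rw [measureReal_def]
    rcases le_or_gt (a ^ 2) (R ^ 2) with h2 | h2
    · have h3 : {q : ℝ | a ^ 2 + q ^ 2 ≤ R ^ 2} = Icc (-√(R ^ 2 - a ^ 2)) (√(R ^ 2 - a ^ 2)) := by
        ext q
        simp only [mem_ofPred_eq, mem_Icc, ← abs_le]
        rw [Real.le_sqrt (abs_nonneg q) (by linarith), sq_abs]
        constructor <;> intro h <;> linarith
      rw [h3, Real.volume_Icc, ENNReal.toReal_ofReal (by have := sqrt_nonneg (R ^ 2 - a ^ 2); linarith)]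
      ring
    · have h3 : {q : ℝ | a ^ 2 + q ^ 2 ≤ R ^ 2} = ∅ := by
        ext q
        simp only [mem_ofPred_eq, mem_empty_iff_false, iff_false, not_le]
        nlinarith [sq_nonneg q]
      rw [h3, measure_empty, sqrt_eq_zero_of_nonpos (by linarith)]
      simp
  -- the one dimensional integral
  have hC : Continuous fun a : ℝ => 2 * √(R ^ 2 - a ^ 2) := by fun_prop
  have hsupp : ∀ a : ℝ, a ∉ Ioc (-R) R → 2 * √(R ^ 2 - a ^ 2) = 0 := by
    intro a ha
    rw [sqrt_eq_zero_of_nonpos, mul_zero]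
    by_contra hc
    rw [not_le] at hc
    refine ha ?_
    have h1 : |a| < R := abs_lt_of_sq_lt_sq (by linarith) hR.le
    exact ⟨(abs_lt.1 h1).1, (abs_lt.1 h1).2.le⟩
  have hcs : HasCompactSupport fun a : ℝ => 2 * √(R ^ 2 - a ^ 2) :=
    HasCompactSupport.intro' (K := Icc (-R) R) isCompact_Icc isClosed_Icc
      fun a ha => hsupp a fun h => ha (Ioc_subset_Icc_self h)
  have icos : Integrable fun a : ℝ => 2 * √(R ^ 2 - a ^ 2) * cos (2 * π * (s * a)) :=
    (hC.mul (by fun_prop)).integrable_of_hasCompactSupport hcs.mul_right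
  have isin : Integrable fun a : ℝ => 2 * √(R ^ 2 - a ^ 2) * sin (2 * π * (s * a)) :=
    (hC.mul (by fun_prop)).integrable_of_hasCompactSupport hcs.mul_right
  have e3 : ∫ a : ℝ, ((2 * √(R ^ 2 - a ^ 2) : ℝ) : ℂ) *
      Complex.exp (2 * π * Complex.I * ((s * a : ℝ) : ℂ))
      = ((∫ a : ℝ, 2 * √(R ^ 2 - a ^ 2) * cos (2 * π * (s * a)) : ℝ) : ℂ)
        + ((∫ a : ℝ, 2 * √(R ^ 2 - a ^ 2) * sin (2 * π * (s * a)) : ℝ) : ℂ) * Complex.I := by
    rw [← integral_complex_ofReal, ← integral_complex_ofReal, ← integral_mul_const,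
      ← integral_add icos.ofReal (isin.ofReal.mul_const _)]
    refine integral_congr_ae (Eventually.of_forall fun a => ?_)
    simp only
    rw [show 2 * (π : ℂ) * Complex.I * ((s * a : ℝ) : ℂ)
        = ((2 * π * (s * a) : ℝ) : ℂ) * Complex.I by push_cast; ring, Complex.exp_mul_I]
    push_cast
    ring
  have e4 : ∫ a : ℝ, 2 * √(R ^ 2 - a ^ 2) * sin (2 * π * (s * a)) = 0 := by
    have h1 := integral_neg_eq_self (fun a : ℝ => 2 * √(R ^ 2 - a ^ 2) * sin (2 * π * (s * a)))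
      volume
    have h2 : ∫ a : ℝ, 2 * √(R ^ 2 - (-a) ^ 2) * sin (2 * π * (s * (-a)))
        = -∫ a : ℝ, 2 * √(R ^ 2 - a ^ 2) * sin (2 * π * (s * a)) := by
      rw [← integral_neg]
      refine integral_congr_ae (Eventually.of_forall fun a => ?_)
      simp only
      rw [neg_sq, show 2 * π * (s * (-a)) = -(2 * π * (s * a)) by ring, sin_neg]
      ring
    rw [h2] at h1
    linarith
  have e5 : ∫ a : ℝ, 2 * √(R ^ 2 - a ^ 2) * cos (2 * π * (s * a))
      = 2 * ∫ a in (0 : ℝ)..R, 2 * √(R ^ 2 - a ^ 2) * cos (2 * π * (s * a)) := by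
    rw [← intervalIntegral.integral_eq_integral_of_support_subset (a := -R) (b := R)]
    · rw [← intervalIntegral.integral_add_adjacent_intervals (b := 0) icos.intervalIntegrable
        icos.intervalIntegrable, two_mul (∫ a in (0 : ℝ)..R, _)]
      congr 1
      have h1 := intervalIntegral.integral_comp_neg (a := 0) (b := R)
        (fun a : ℝ => 2 * √(R ^ 2 - a ^ 2) * cos (2 * π * (s * a)))
      rw [neg_zero] at h1
      rw [← h1]
      refine intervalIntegral.integral_congr fun a _ => ?_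
      rw [neg_sq, show 2 * π * (s * (-a)) = -(2 * π * (s * a)) by ring, cos_neg]
    · intro a ha
      by_contra hc
      exact ha (by simp only [hsupp a hc, zero_mul])
  have e6 : ∫ a in (0 : ℝ)..R, 2 * √(R ^ 2 - a ^ 2) * cos (2 * π * (s * a))
      = 2 * R ^ 2 * ∫ θ in (0 : ℝ)..(π / 2), cos θ ^ 2 * cos ((2 * π * R * s) * sin θ) := by
    have h1 := intervalIntegral.integral_comp_mul_deriv (a := 0) (b := π / 2)
      (f := fun θ => R * sin θ) (f' := fun θ => R * cos θ)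
      (g := fun a => 2 * √(R ^ 2 - a ^ 2) * cos (2 * π * (s * a)))
      (fun θ _ => (hasDerivAt_sin θ).const_mul R) (by fun_prop) (hC.mul (by fun_prop))
    simp only [sin_zero, mul_zero, sin_pi_div_two, mul_one] at h1
    rw [← h1, ← intervalIntegral.integral_const_mul]
    refine intervalIntegral.integral_congr fun θ hθ => ?_
    rw [uIcc_of_le (by positivity)] at hθ
    have hcos : 0 ≤ cos θ := cos_nonneg_of_mem_Icc ⟨by linarith [hθ.1, pi_pos], hθ.2⟩
    simp only [Function.comp]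
    have h2 : √(R ^ 2 - (R * sin θ) ^ 2) = R * cos θ := by
      rw [show R ^ 2 - (R * sin θ) ^ 2 = (R * cos θ) ^ 2 by
        have := sin_sq_add_cos_sq θ
        nlinarith, sqrt_sq (by positivity)]
    rw [h2, show 2 * π * (s * (R * sin θ)) = 2 * π * R * s * sin θ by ring]
    ring
  rw [e1, e2, e3, e4, e5, e6]
  have h7 := j1_eq (2 * π * R * s)
  rw [gk, h7]
  push_cast
  have hpi : (π : ℂ) ≠ 0 := by exact_mod_cast pi_ne_zero
  have hsC : (s : ℂ) ≠ 0 := by exact_mod_cast hx0.ne'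
  field_simp
  ring

end Pool.Agent.Helper854_QC
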