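import Mathlib
import Pool.Agent.Helper854_QC.B

/-! Integrals of the kernel of the disc multiplier along rays and chords. -/

set_option autoImplicit false

open MeasureTheory Real Set Filter Topology
open scoped ENNReal NNReal RealInnerProductSpace

namespace Pool.Agent.Helper854_QC

lemma j0_cont : Continuous j0 := continuous_iff_continuousAt.2 fun u => (j0_deriv u).continuousAt

lemma j1_cont : Continuous j1 := by
  unfold j1
  refine continuous_const.mul ?_
  exact intervalIntegral.continuous_parametric_intervalIntegral_of_continuous' (by fun_prop) _ _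

lemma j1_le (u : ℝ) : |j1 u| ≤ |u| := by
  rw [j1_eq]
  have h1 : |∫ θ in (0 : ℝ)..(π / 2), cos θ ^ 2 * cos (u * sin θ)| ≤ 1 * (π / 2 - 0) := by
    refine int_le (by positivity) fun θ _ => ?_
    rw [abs_mul, abs_pow]
    exact mul_le_one₀ (pow_le_one₀ (abs_nonneg _) (abs_cos_le_one _)) (abs_nonneg _)
      (abs_cos_le_one _)
  have hpi := pi_pos
  rw [abs_mul, abs_mul, abs_of_pos (by positivity : 0 < 2 / π)]
  calc 2 / π * (|u| * |∫ θ in (0 : ℝ)..(π / 2), cos θ ^ 2 * cos (u * sin θ)|)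
      ≤ 2 / π * (|u| * (1 * (π / 2 - 0))) := by gcongr
    _ = |u| := by field_simp; ring

lemma gk_meas (R : ℝ) : Measurable (gk R) := by
  unfold gk
  have : Measurable fun r : ℝ => j1 (2 * π * R * r) := (j1_cont.comp (by fun_prop)).measurable
  fun_prop

lemma gk_le_const {R : ℝ} (hR : 0 < R) (r : ℝ) : |gk R r| ≤ 2 * π * R ^ 2 := by
  rcases eq_or_ne r 0 with rfl | hr
  · simp only [gk, div_zero, abs_zero]; positivity
  · have h := j1_le (2 * π * R * r)
    have hr' : 0 < |r| := abs_pos.2 hr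
    rw [gk, abs_div, abs_mul, abs_of_pos hR, div_le_iff₀ hr']
    calc R * |j1 (2 * π * R * r)| ≤ R * |2 * π * R * r| := by gcongr
      _ = 2 * π * R ^ 2 * |r| := by
        rw [abs_mul, abs_of_pos (by positivity : 0 < 2 * π * R)]; ring

lemma gk_le {R r : ℝ} (hR : 0 < R) (hr : 0 < r) : |gk R r| ≤ 2 * √R / (r * √r) := by
  have h := j1_decay (u := 2 * π * R * r) (by positivity)
  have hsR : 0 < √R := sqrt_pos.2 hR
  have hsr : 0 < √r := sqrt_pos.2 hr
  have h2 : 2 * (√R * √r) ≤ √(2 * π * R * r) := by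
    apply le_sqrt_of_sq_le
    have e1 : (2 * (√R * √r)) ^ 2 = 4 * (R * r) := by
      rw [mul_pow, mul_pow, sq_sqrt hR.le, sq_sqrt hr.le]; ring
    rw [e1]
    have h3 : 0 < R * r := by positivity
    nlinarith [pi_gt_three]
  have h4 : |j1 (2 * π * R * r)| ≤ 2 / (√R * √r) := by
    refine h.trans ?_
    rw [div_le_div_iff₀ (by positivity) (by positivity)]
    nlinarith [mul_pos hsR hsr]
  rw [gk, abs_div, abs_mul, abs_of_pos hR, abs_of_pos hr]
  calc R * |j1 (2 * π * R * r)| / r ≤ R * (2 / (√R * √r)) / r := by gcongr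
    _ = 2 * √R / (r * √r) := by
      have : R = √R * √R := (mul_self_sqrt hR.le).symm
      rw [div_eq_div_iff (by positivity) (by positivity)]
      field_simp
      nlinarith

/-- the ray integral -/
lemma ray {R a b : ℝ} (hR : 0 < R) :
    ∫ r in a..b, R * j1 (2 * π * R * r) = (j0 (2 * π * R * a) - j0 (2 * π * R * b)) / (2 * π) := by
  have h := intervalIntegral.integral_eq_sub_of_hasDerivAt (a := a) (b := b)
    (f := fun r => -(j0 (2 * π * R * r) / (2 * π))) (f' := fun r => R * j1 (2 * π * R * r))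
    (fun r _ => ?_) ?_
  · rw [h]; ring
  · have h1 : HasDerivAt (fun r : ℝ => 2 * π * R * r) (2 * π * R * 1) r :=
      (hasDerivAt_id r).const_mul _
    have h2 := (((j0_deriv (2 * π * R * r)).comp r h1).div_const (2 * π)).neg
    refine h2.congr_deriv ?_
    have := pi_pos
    field_simp
  · exact ((continuous_const.mul (j1_cont.comp (by fun_prop))).intervalIntegrable _ _)

lemma rho_pos {h s : ℝ} (hs : h ≠ 0 ∨ s ≠ 0) : 0 < √(s ^ 2 + h ^ 2) := by
  apply sqrt_pos.2
  rcases hs with h1 | h1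
  · have := sq_pos_of_ne_zero h1 |>.trans_le' le_rfl
    have := sq_nonneg s
    positivity
  · have := sq_nonneg h
    positivity

lemma chord_cont {R h : ℝ} (α β : ℝ) (hp : h ≠ 0 ∨ 0 < α) (hab : α ≤ β) :
    ContinuousOn (fun s => gk R (√(s ^ 2 + h ^ 2))) (uIcc α β) := by
  unfold gk
  refine ContinuousOn.div ?_ (by fun_prop) fun s hs => ?_
  · exact (continuous_const.mul (j1_cont.comp (by fun_prop))).continuousOn
  · rw [uIcc_of_le hab] at hs
    refine (rho_pos ?_).ne'
    rcases hp with hp | hp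
    · exact Or.inl hp
    · exact Or.inr (hp.trans_le hs.1).ne'

/-- integration by parts on a chord -/
lemma chord_ibp {R h α β B : ℝ} (hα : 0 < α) (hab : α ≤ β)
    (hB : ∀ s ∈ Icc α β, |j0 (2 * π * R * √(s ^ 2 + h ^ 2))| ≤ B) :
    |∫ s in α..β, gk R (√(s ^ 2 + h ^ 2))| ≤ B / (π * α) := by
  have hpi := pi_pos
  have hI : uIcc α β = Icc α β := uIcc_of_le hab
  have hβ : 0 < β := hα.trans_le hab
  have cJ : Continuous fun s => j0 (2 * π * R * √(s ^ 2 + h ^ 2)) :=
    j0_cont.comp (by fun_prop)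
  have cQ : ContinuousOn (fun s => j0 (2 * π * R * √(s ^ 2 + h ^ 2)) / (2 * π * s ^ 2))
      (uIcc α β) := by
    refine ContinuousOn.div cJ.continuousOn (by fun_prop) fun s hs => ?_
    rw [hI] at hs
    have : 0 < s := hα.trans_le hs.1
    positivity
  have cG := chord_cont (R := R) (h := h) α β (Or.inr hα) hab
  have key : ∫ s in α..β, (gk R (√(s ^ 2 + h ^ 2)) +
      j0 (2 * π * R * √(s ^ 2 + h ^ 2)) / (2 * π * s ^ 2))
      = -(j0 (2 * π * R * √(β ^ 2 + h ^ 2)) / (2 * π * β)) -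
        -(j0 (2 * π * R * √(α ^ 2 + h ^ 2)) / (2 * π * α)) := by
    refine intervalIntegral.integral_eq_sub_of_hasDerivAt
      (f := fun s => -(j0 (2 * π * R * √(s ^ 2 + h ^ 2)) / (2 * π * s))) (fun s hs => ?_)
      (cG.add cQ).intervalIntegrable
    rw [hI] at hs
    have hs0 : 0 < s := hα.trans_le hs.1
    have hr := rho_pos (h := h) (s := s) (Or.inr hs0.ne')
    have hr2 : √(s ^ 2 + h ^ 2) ^ 2 = s ^ 2 + h ^ 2 := sq_sqrt (by positivity)
    have h1 : HasDerivAt (fun s : ℝ => s ^ 2 + h ^ 2) (2 * s) s := by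
      simpa using (hasDerivAt_pow 2 s).add_const (h ^ 2)
    have h2 : HasDerivAt (fun s : ℝ => √(s ^ 2 + h ^ 2)) (2 * s / (2 * √(s ^ 2 + h ^ 2))) s :=
      h1.sqrt (by positivity)
    have h3 := (j0_deriv (2 * π * R * √(s ^ 2 + h ^ 2))).comp s (h2.const_mul (2 * π * R))
    have h4 : HasDerivAt (fun s : ℝ => 2 * π * s) (2 * π * 1) s := (hasDerivAt_id s).const_mul _
    refine ((h3.div h4 (by positivity)).neg).congr_deriv ?_
    rw [gk]
    simp only [Function.comp]
    generalize √(s ^ 2 + h ^ 2) = r at *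
    field_simp
    ring
  rw [intervalIntegral.integral_add cG.intervalIntegrable cQ.intervalIntegrable] at key
  have hQ : |∫ s in α..β, j0 (2 * π * R * √(s ^ 2 + h ^ 2)) / (2 * π * s ^ 2)|
      ≤ B / (2 * π) * (1 / α - 1 / β) := by
    have h1 : ∫ s in α..β, B / (2 * π) * (1 / s ^ 2) = B / (2 * π) * (1 / α - 1 / β) := by
      rw [intervalIntegral.integral_const_mul]
      congr 1
      have : ∫ s in α..β, 1 / s ^ 2 = -(1 / β) - -(1 / α) := by
        refine intervalIntegral.integral_eq_sub_of_hasDerivAt (f := fun s => -(1 / s))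
          (fun s hs => ?_) ?_
        · rw [hI] at hs
          have hs0 : s ≠ 0 := (hα.trans_le hs.1).ne'
          have := (hasDerivAt_inv hs0).neg
          simp only [one_div]
          refine this.congr_deriv ?_
          ring
        · refine ContinuousOn.intervalIntegrable ?_
          refine ContinuousOn.div (by fun_prop) (by fun_prop) fun s hs => ?_
          rw [hI] at hs
          have : 0 < s := hα.trans_le hs.1
          positivity
      rw [this]; ring
    rw [← h1, ← Real.norm_eq_abs]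
    refine intervalIntegral.norm_integral_le_of_norm_le hab ?_ ?_
    · refine Eventually.of_forall fun s hs => ?_
      have hs0 : 0 < s := hα.trans hs.1
      rw [Real.norm_eq_abs, abs_div, abs_of_pos (by positivity : 0 < 2 * π * s ^ 2)]
      calc |j0 (2 * π * R * √(s ^ 2 + h ^ 2))| / (2 * π * s ^ 2) ≤ B / (2 * π * s ^ 2) := by
            gcongr; exact hB s ⟨hs.1.le, hs.2⟩
        _ = B / (2 * π) * (1 / s ^ 2) := by field_simp
    · refine (ContinuousOn.mul (by fun_prop) ?_).intervalIntegrable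
      refine ContinuousOn.div (by fun_prop) (by fun_prop) fun s hs => ?_
      rw [hI] at hs
      have : 0 < s := hα.trans_le hs.1
      positivity
  have h5 : |j0 (2 * π * R * √(β ^ 2 + h ^ 2)) / (2 * π * β)| ≤ B / (2 * π * β) := by
    rw [abs_div, abs_of_pos (by positivity : 0 < 2 * π * β)]
    gcongr; exact hB β ⟨hab, le_rfl⟩
  have h6 : |j0 (2 * π * R * √(α ^ 2 + h ^ 2)) / (2 * π * α)| ≤ B / (2 * π * α) := by
    rw [abs_div, abs_of_pos (by positivity : 0 < 2 * π * α)]
    gcongr; exact hB α ⟨le_rfl, hab⟩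
  have h7 : B / (π * α) = B / (2 * π * β) + B / (2 * π * α) + B / (2 * π) * (1 / α - 1 / β) := by
    field_simp; ring
  rw [h7, abs_le]
  have a5 := abs_le.1 h5
  have a6 := abs_le.1 h6
  have aQ := abs_le.1 hQ
  constructor <;> linarith [a5.1, a5.2, a6.1, a6.2, aQ.1, aQ.2]

/-- far chords -/
lemma chord_far {R h α a b : ℝ} (hR : 0 < R) (hα : 0 < α) (ha : α ≤ a) (hab : a ≤ b) :
    |∫ s in a..b, gk R (√(s ^ 2 + h ^ 2))| ≤ 1 / (√R * √α * α) := by
  have hpi := pi_pos
  have hsR : 0 < √R := sqrt_pos.2 hR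
  have hsα : 0 < √α := sqrt_pos.2 hα
  have ha0 : 0 < a := hα.trans_le ha
  have h1 := chord_ibp (R := R) (h := h) (B := 3 / (2 * (√R * √α))) ha0 hab fun s hs => ?_
  · refine h1.trans ?_
    rw [div_div, div_le_div_iff₀ (by positivity) (by positivity)]
    have : √R * √α * α * 3 ≤ √R * √α * a * (2 * π) := by
      have : α * 3 ≤ a * (2 * π) := by nlinarith [pi_gt_three]
      nlinarith [mul_pos hsR hsα]
    nlinarith
  · have hsa : α ≤ √(s ^ 2 + h ^ 2) := by
      apply le_sqrt_of_sq_le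
      have : α ≤ s := ha.trans hs.1
      nlinarith [sq_nonneg h]
    have hr : 0 < √(s ^ 2 + h ^ 2) := hα.trans_le hsa
    refine (j0_decay (by positivity)).trans ?_
    have h2 : 2 * (√R * √α) ≤ √(2 * π * R * √(s ^ 2 + h ^ 2)) := by
      apply le_sqrt_of_sq_le
      have e1 : (2 * (√R * √α)) ^ 2 = 4 * (R * α) := by
        rw [mul_pow, mul_pow, sq_sqrt hR.le, sq_sqrt hα.le]; ring
      rw [e1]
      have h3 : R * α ≤ R * √(s ^ 2 + h ^ 2) := by gcongr
      have h4 : 0 < R * √(s ^ 2 + h ^ 2) := by positivity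
      nlinarith [pi_gt_three]
    gcongr

/-- chords at distance `|h|` -/
lemma chord_half {R h b : ℝ} (hR : 0 < R) (hh : h ≠ 0) (hb : 0 ≤ b) :
    |∫ s in (0 : ℝ)..b, gk R (√(s ^ 2 + h ^ 2))| ≤ 3 / |h| := by
  have hpi := pi_pos
  have hh' : 0 < |h| := abs_pos.2 hh
  have hsR : 0 < √R := sqrt_pos.2 hR
  have hsh : 0 < √|h| := sqrt_pos.2 hh'
  have hrho : ∀ s : ℝ, |h| ≤ √(s ^ 2 + h ^ 2) := fun s => by
    apply le_sqrt_of_sq_le
    rw [sq_abs]; nlinarith [sq_nonneg s]
  -- near part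
  have near : ∀ c : ℝ, 0 ≤ c → |∫ s in (0 : ℝ)..c, gk R (√(s ^ 2 + h ^ 2))|
      ≤ 2 * √R / (|h| * √|h|) * (c - 0) := fun c hc => by
    refine int_le hc fun s _ => ?_
    have h1 := hrho s
    have h2 : 0 < √(s ^ 2 + h ^ 2) := hh'.trans_le h1
    refine (gk_le hR h2).trans ?_
    have : √|h| ≤ √√(s ^ 2 + h ^ 2) := sqrt_le_sqrt h1
    gcongr
  set s₀ : ℝ := √|h| / √R with hs₀
  have hs₀0 : 0 < s₀ := by positivity
  have hnear : 2 * √R / (|h| * √|h|) * s₀ = 2 / |h| := by
    rw [hs₀]; field_simp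
  rcases le_total b s₀ with hc | hc
  · refine (near b hb).trans ?_
    rw [sub_zero]
    calc 2 * √R / (|h| * √|h|) * b ≤ 2 * √R / (|h| * √|h|) * s₀ := by gcongr
      _ = 2 / |h| := hnear
      _ ≤ 3 / |h| := by gcongr; norm_num
  · have h1 := near s₀ hs₀0.le
    rw [sub_zero, hnear] at h1
    have h2 := chord_ibp (R := R) (h := h) (B := 3 / (2 * (√R * √|h|))) hs₀0 hc fun s hs => ?_
    · have h3 : ∫ s in (0 : ℝ)..b, gk R (√(s ^ 2 + h ^ 2)) =
          (∫ s in (0 : ℝ)..s₀, gk R (√(s ^ 2 + h ^ 2))) +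
            ∫ s in s₀..b, gk R (√(s ^ 2 + h ^ 2)) :=
        (intervalIntegral.integral_add_adjacent_intervals
          (chord_cont _ _ (Or.inl hh) hs₀0.le).intervalIntegrable
          (chord_cont _ _ (Or.inl hh) hc).intervalIntegrable).symm
      rw [h3]
      refine (abs_add_le _ _).trans ?_
      have h4 : 3 / (2 * (√R * √|h|)) / (π * s₀) ≤ 1 / |h| := by
        have hhh : √|h| * √|h| = |h| := mul_self_sqrt hh'.le
        have e : 2 * (√R * √|h|) * (π * s₀) = 2 * π * |h| := by
          rw [hs₀]; field_simp; nlinarith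
        rw [div_div, e, div_le_div_iff₀ (by positivity) hh']
        nlinarith [pi_gt_three]
      have e3 : 3 / |h| = 2 / |h| + 1 / |h| := by ring
      linarith
    · have h1 := hrho s
      have hr : 0 < √(s ^ 2 + h ^ 2) := hh'.trans_le h1
      refine (j0_decay (by positivity)).trans ?_
      have h2 : 2 * (√R * √|h|) ≤ √(2 * π * R * √(s ^ 2 + h ^ 2)) := by
        apply le_sqrt_of_sq_le
        have e1 : (2 * (√R * √|h|)) ^ 2 = 4 * (R * |h|) := by
          rw [mul_pow, mul_pow, sq_sqrt hR.le, sq_sqrt hh'.le]; ring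
        rw [e1]
        have h3 : R * |h| ≤ R * √(s ^ 2 + h ^ 2) := by gcongr
        have h4 : 0 < R * √(s ^ 2 + h ^ 2) := by positivity
        nlinarith [pi_gt_three]
      gcongr

lemma chord_near {R h a b : ℝ} (hR : 0 < R) (hh : h ≠ 0) :
    |∫ s in a..b, gk R (√(s ^ 2 + h ^ 2))| ≤ 6 / |h| := by
  have ii : ∀ c d : ℝ, IntervalIntegrable (fun s => gk R (√(s ^ 2 + h ^ 2))) volume c d := by
    intro c d
    rcases le_total c d with hcd | hcd
    · exact (chord_cont _ _ (Or.inl hh) hcd).intervalIntegrable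
    · exact (chord_cont _ _ (Or.inl hh) hcd).intervalIntegrable.symm
  have half : ∀ c : ℝ, |∫ s in (0 : ℝ)..c, gk R (√(s ^ 2 + h ^ 2))| ≤ 3 / |h| := by
    intro c
    rcases le_total 0 c with hc | hc
    · exact chord_half hR hh hc
    · have h1 := intervalIntegral.integral_comp_neg (a := 0) (b := -c)
        (fun s : ℝ => gk R (√(s ^ 2 + h ^ 2)))
      simp only [neg_sq, neg_zero, neg_neg] at h1
      rw [intervalIntegral.integral_symm, ← h1, abs_neg]
      exact chord_half hR hh (by linarith)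
  have h1 : ∫ s in a..b, gk R (√(s ^ 2 + h ^ 2)) =
      (∫ s in (0 : ℝ)..b, gk R (√(s ^ 2 + h ^ 2))) - ∫ s in (0 : ℝ)..a, gk R (√(s ^ 2 + h ^ 2)) :=
    (intervalIntegral.integral_interval_sub_left (ii _ _) (ii _ _)).symm
  rw [h1]
  have h2 := half a
  have h3 := half b
  have e : 6 / |h| = 3 / |h| + 3 / |h| := by ring
  rw [e]
  exact (abs_sub _ _).trans (add_le_add h3 h2)

end Pool.Agent.Helper854_QC
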