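import Mathlib
import Pool.Agent.Helper854_QC.C

/-! Pointwise bounds for the disc partial sums of the indicator function of a set which meets
every line in few intervals. -/

set_option autoImplicit false

open MeasureTheory Real Set Filter Topology
open scoped ENNReal NNReal RealInnerProductSpace

namespace Pool.Agent.Helper854_QC

/-- `T` is the union of `N` disjoint (possibly empty) intervals -/
def NInt (N : ℕ) (T : Set ℝ) : Prop :=
  ∃ I : Fin N → Set ℝ, (∀ i, (I i).OrdConnected) ∧ Pairwise (Function.onFun Disjoint I) ∧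
    T = ⋃ i, I i

/-- every line meets `A` in at most `N` intervals -/
def LineN (N : ℕ) (A : Set E2) : Prop := ∀ p v : E2, v ≠ 0 → NInt N {s : ℝ | p + s • v ∈ A}

lemma ord_ae {I : Set ℝ} (hI : I.OrdConnected) {A B : ℝ} (hAB : A ≤ B) (h : I ⊆ Icc A B) :
    ∃ a b, A ≤ a ∧ a ≤ b ∧ b ≤ B ∧ I =ᵐ[volume] Ioc a b := by
  rcases I.eq_empty_or_nonempty with rfl | hne
  · exact ⟨A, A, le_rfl, le_rfl, hAB, EventuallyEq.of_eq (Ioc_self A).symm⟩
  · have hb : BddBelow I := ⟨A, fun x hx => (h hx).1⟩
    have ha : BddAbove I := ⟨B, fun x hx => (h hx).2⟩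
    refine ⟨sInf I, sSup I, le_csInf hne fun x hx => (h hx).1, csInf_le_csSup hne hb ha,
      csSup_le hne fun x hx => (h hx).2, ?_⟩
    have h1 : Ioo (sInf I) (sSup I) ⊆ I := by
      intro x hx
      obtain ⟨y, hy, hyx⟩ := exists_lt_of_csInf_lt hne hx.1
      obtain ⟨z, hz, hxz⟩ := exists_lt_of_lt_csSup hne hx.2
      exact hI.out hy hz ⟨hyx.le, hxz.le⟩
    have h2 : I ⊆ Icc (sInf I) (sSup I) := fun x hx => ⟨csInf_le hb hx, le_csSup ha hx⟩
    have h3 : Ioo (sInf I) (sSup I) =ᵐ[volume] Ioc (sInf I) (sSup I) := Ioo_ae_eq_Ioc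
    have h4 : Ioc (sInf I) (sSup I) =ᵐ[volume] Icc (sInf I) (sSup I) := Ioc_ae_eq_Icc
    exact EventuallyLE.antisymm ((LE.le.eventuallyLE h2).trans h4.symm.le)
      (h3.symm.le.trans (LE.le.eventuallyLE h1))

lemma nint_bound {N : ℕ} {T : Set ℝ} {A B M : ℝ} {φ : ℝ → ℝ} (hT : NInt N T) (hAB : A ≤ B)
    (hTA : T ⊆ Icc A B) (hφ : IntegrableOn φ (Icc A B))
    (hM : ∀ a b, A ≤ a → a ≤ b → b ≤ B → |∫ s in a..b, φ s| ≤ M) :
    |∫ s in T, φ s| ≤ N * M := by
  obtain ⟨I, hI, hd, rfl⟩ := hT
  have hs : ∀ i, I i ⊆ Icc A B := fun i => (subset_iUnion I i).trans hTA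
  rw [integral_iUnion_fintype (fun i => (hI i).measurableSet) hd
    (fun i => hφ.mono_set (hs i))]
  refine (Finset.abs_sum_le_sum_abs _ _).trans ?_
  have : ∀ i ∈ Finset.univ, |∫ s in I i, φ s| ≤ M := by
    intro i _
    obtain ⟨a, b, h1, h2, h3, h4⟩ := ord_ae (hI i) hAB (hs i)
    rw [setIntegral_congr_set h4, ← intervalIntegral.integral_of_le h2]
    exact hM a b h1 h2 h3
  refine (Finset.sum_le_sum this).trans ?_
  simp

lemma NInt.inter {N : ℕ} {T : Set ℝ} (hT : NInt N T) {J : Set ℝ} (hJ : J.OrdConnected) :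
    NInt N (T ∩ J) := by
  obtain ⟨I, hI, hd, rfl⟩ := hT
  refine ⟨fun i => I i ∩ J, fun i => (hI i).inter hJ, fun i j hij => ?_, iUnion_inter _ _⟩
  exact (hd hij).mono inter_subset_left inter_subset_left

/-- the partial sum of the indicator function of `A` -/
noncomputable def VA (R : ℝ) (A : Set E2) (x : E2) : ℝ := ∫ y in A, gk R ‖x - y‖

/-- the integrand in coordinates -/
noncomputable def Fc (b : OrthonormalBasis (Fin 2) ℝ E2) (R : ℝ) (A : Set E2) (x : E2) :
    ℝ × ℝ → ℝ :=
  {p : ℝ × ℝ | x + p.1 • b 0 + p.2 • b 1 ∈ A}.indicator (fun p => gk R (√(p.1 ^ 2 + p.2 ^ 2)))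

variable {R : ℝ} {A : Set E2} {x : E2} {N : ℕ}

lemma int_fin (hR : 0 < R) (hA : MeasurableSet A) (hf : volume A < ⊤) :
    Integrable (A.indicator fun y => gk R ‖x - y‖) := by
  rw [integrable_indicator_iff hA]
  refine Measure.integrableOn_of_bounded (M := 2 * π * R ^ 2) hf.ne ?_ ?_
  · exact ((gk_meas R).comp (by fun_prop : Measurable fun y : E2 => ‖x - y‖)).aestronglyMeasurable
  · exact Eventually.of_forall fun y => by rw [Real.norm_eq_abs]; exact gk_le_const hR _

lemma coord_aux (b : OrthonormalBasis (Fin 2) ℝ E2) (z : E2) :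
    Fc b R A x (ceq b z) = A.indicator (fun y => gk R ‖x - y‖) (x + z) := by
  have hz : x + (ceq b z).1 • b 0 + (ceq b z).2 • b 1 = x + z := by
    have h := b.sum_repr' z
    rw [Fin.sum_univ_two] at h
    rw [ceq_apply, add_assoc, h]
  have hn : √((ceq b z).1 ^ 2 + (ceq b z).2 ^ 2) = ‖z‖ := by
    rw [ceq_apply]
    simp only
    rw [← norm_sq_coord b z, sqrt_sq (norm_nonneg _)]
  unfold Fc
  by_cases h : x + z ∈ A
  · rw [indicator_of_mem (by rw [mem_ofPred_eq, hz]; exact h), indicator_of_mem h, hn]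
    congr 1
    rw [sub_add_cancel_left, norm_neg]
  · rw [indicator_of_notMem (by rw [mem_ofPred_eq, hz]; exact h), indicator_of_notMem h]

lemma Fc_meas (b : OrthonormalBasis (Fin 2) ℝ E2) (hA : MeasurableSet A) :
    Measurable (Fc b R A x) := by
  refine Measurable.indicator ((gk_meas R).comp (by fun_prop)) ?_
  exact hA.preimage (by fun_prop : Measurable fun p : ℝ × ℝ => x + p.1 • b 0 + p.2 • b 1)

lemma Fc_int (b : OrthonormalBasis (Fin 2) ℝ E2) (hR : 0 < R) (hA : MeasurableSet A)
    (hf : volume A < ⊤) : Integrable (Fc b R A x) := by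
  rw [← (ceq_mp b).integrable_comp_emb (ceq b).measurableEmbedding]
  refine ((int_fin (x := x) hR hA hf).comp_add_left x).congr ?_
  exact Eventually.of_forall fun z => (coord_aux b z).symm

lemma VA_coord (b : OrthonormalBasis (Fin 2) ℝ E2) (hA : MeasurableSet A) :
    VA R A x = ∫ p, Fc b R A x p := by
  rw [← (ceq_mp b).integral_comp' (Fc b R A x), VA, ← integral_indicator hA,
    ← integral_add_left_eq_self _ x]
  exact integral_congr_ae (Eventually.of_forall fun z => (coord_aux b z).symm)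

lemma bdd_line {p v : E2} (hb : Bornology.IsBounded A) (hv : v ≠ 0) :
    ∃ B, 0 ≤ B ∧ {s : ℝ | p + s • v ∈ A} ⊆ Icc (-B) B := by
  obtain ⟨r, hr⟩ := hb.subset_closedBall 0
  have hv' : 0 < ‖v‖ := norm_pos_iff.2 hv
  refine ⟨(|r| + ‖p‖) / ‖v‖, by positivity, fun s hs => ?_⟩
  have h1 : ‖p + s • v‖ ≤ r := mem_closedBall_zero_iff.1 (hr hs)
  rw [mem_Icc, ← abs_le, le_div_iff₀ hv']
  have h2 : ‖s • v‖ ≤ ‖p + s • v‖ + ‖p‖ := by
    calc ‖s • v‖ = ‖(p + s • v) - p‖ := by rw [add_sub_cancel_left]
      _ ≤ _ := norm_sub_le _ _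
  rw [norm_smul, Real.norm_eq_abs] at h2
  linarith [le_abs_self r]

/-- the bound through rays -/
theorem polar_bound (hR : 0 < R) (hA : MeasurableSet A) (hb : Bornology.IsBounded A)
    (hN : LineN N A) : |VA R A x| ≤ 2 * N := by
  have hpi := pi_pos
  have hf : volume A < ⊤ := hb.measure_lt_top
  obtain ⟨b, -⟩ := exists_basis (e := EuclideanSpace.single 0 1) (by simp)
  rw [VA_coord b hA, ← integral_comp_polarCoord_symm]
  have hint : IntegrableOn (fun p : ℝ × ℝ => p.1 • Fc b R A x (polarCoord.symm p))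
      polarCoord.target := by
    have hmeas : Measurable fun p : ℝ × ℝ => p.1 • Fc b R A x (polarCoord.symm p) :=
      measurable_fst.smul ((Fc_meas b hA).comp continuous_polarCoord_symm.measurable)
    refine ⟨hmeas.aestronglyMeasurable, ?_⟩
    have h1 := lintegral_comp_polarCoord_symm (fun p => ‖Fc b R A x p‖ₑ)
    have h2 : ∫⁻ p in polarCoord.target, ‖p.1 • Fc b R A x (polarCoord.symm p)‖ₑ
        = ∫⁻ p, ‖Fc b R A x p‖ₑ := by
      rw [← h1]
      refine setLIntegral_congr_fun polarCoord.open_target.measurableSet fun p hp => ?_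
      have hp0 : 0 < p.1 := hp.1
      rw [smul_eq_mul, enorm_mul, Real.enorm_eq_ofReal hp0.le, smul_eq_mul]
    rw [HasFiniteIntegral, h2]
    exact (Fc_int b hR hA hf).2
  have e1 : polarCoord.target = Ioi (0 : ℝ) ×ˢ Ioo (-π) π := rfl
  rw [e1, Measure.volume_eq_prod, ← Measure.prod_restrict]
  rw [integral_prod_symm]
  · rw [← Real.norm_eq_abs]
    refine (norm_setIntegral_le_of_norm_le_const (C := N * (1 / π)) ?_ fun θ _ => ?_).trans ?_
    · rw [Real.volume_Ioo]; exact ENNReal.ofReal_lt_top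
    · set v : E2 := cos θ • b 0 + sin θ • b 1 with hv
      have hv0 : v ≠ 0 := by
        intro h0
        have h1 := norm_sq_coord b v
        have i0 : ⟪b 0, v⟫ = cos θ := by
          rw [hv, inner_add_right, real_inner_smul_right, real_inner_smul_right,
            real_inner_self_eq_norm_sq, b.norm_eq_one, b.inner_eq_zero (by decide)]
          ring
        have i1 : ⟪b 1, v⟫ = sin θ := by
          rw [hv, inner_add_right, real_inner_smul_right, real_inner_smul_right,
            real_inner_self_eq_norm_sq, b.norm_eq_one, b.inner_eq_zero (by decide)]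
          ring
        rw [i0, i1, h0, norm_zero] at h1
        have := sin_sq_add_cos_sq θ
        nlinarith
      obtain ⟨B, hB0, hB⟩ := bdd_line (p := x) hb hv0
      have e2 : ∫ r in Ioi (0 : ℝ), (r, θ).1 • Fc b R A x (polarCoord.symm (r, θ))
          = ∫ r in {s : ℝ | x + s • v ∈ A} ∩ Ioi 0, R * j1 (2 * π * R * r) := by
        have hTm : MeasurableSet {s : ℝ | x + s • v ∈ A} :=
          hA.preimage (by fun_prop : Measurable fun s : ℝ => x + s • v)
        rw [inter_comm, ← setIntegral_indicator hTm]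
        refine setIntegral_congr_fun measurableSet_Ioi fun r hr => ?_
        have hr0 : 0 < r := hr
        simp only [polarCoord_symm_apply]
        unfold Fc
        have hmem : x + (r * cos θ) • b 0 + (r * sin θ) • b 1 = x + r • v := by
          rw [hv, smul_add, smul_smul, smul_smul, add_assoc]
        by_cases h : x + r • v ∈ A
        · rw [indicator_of_mem (by rw [mem_ofPred_eq]; simp only; rw [hmem]; exact h),
            indicator_of_mem (s := {s : ℝ | x + s • v ∈ A}) h]
          have : √((r * cos θ) ^ 2 + (r * sin θ) ^ 2) = r := by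
            rw [show (r * cos θ) ^ 2 + (r * sin θ) ^ 2 = r ^ 2 by
              have := sin_sq_add_cos_sq θ
              nlinarith, sqrt_sq hr0.le]
          simp only
          rw [this, gk, smul_eq_mul]
          field_simp
        · rw [indicator_of_notMem (by rw [mem_ofPred_eq]; simp only; rw [hmem]; exact h),
            indicator_of_notMem (s := {s : ℝ | x + s • v ∈ A}) h, smul_zero]
      simp only [Real.norm_eq_abs]
      rw [e2]
      refine nint_bound (A := 0) (B := B) ((hN x v hv0).inter ordConnected_Ioi) hB0 ?_ ?_ ?_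
      · exact fun s hs => ⟨le_of_lt hs.2, (hB hs.1).2⟩
      · exact ((continuous_const.mul (j1_cont.comp (by fun_prop))).continuousOn).integrableOn_Icc
      · intro a c _ _ _
        rw [ray hR, abs_div, abs_of_pos (by positivity : 0 < 2 * π)]
        have h1 := j0_le_one (2 * π * R * a)
        have h2 := j0_le_one (2 * π * R * c)
        calc |j0 (2 * π * R * a) - j0 (2 * π * R * c)| / (2 * π) ≤ (1 + 1) / (2 * π) := by
              gcongr; exact (abs_sub _ _).trans (add_le_add h1 h2)
          _ = 1 / π := by field_simp; norm_num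
    · rw [measureReal_def, Real.volume_Ioo, ENNReal.toReal_ofReal (by linarith)]
      apply le_of_eq
      field_simp
      ring
  · rwa [Measure.prod_restrict, ← e1]

end Pool.Agent.Helper854_QC
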