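import Mathlib
import Pool.Agent.Helper854_QC.D

/-! Bounds through chords. -/

set_option autoImplicit false

open MeasureTheory Real Set Filter Topology
open scoped ENNReal NNReal RealInnerProductSpace

namespace Pool.Agent.Helper854_QC

variable {R : ℝ} {A : Set E2} {x : E2} {N : ℕ}

/-- slicing by the lines of direction `b 0` -/
lemma slice_bound (b : OrthonormalBasis (Fin 2) ℝ E2) (hR : 0 < R) (hA : MeasurableSet A)
    (hb : Bornology.IsBounded A) (hN : LineN N A) {M τ₁ τ₂ : ℝ} (hτ : τ₁ ≤ τ₂)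
    {α : ℝ → ℝ} (hout : ∀ s t : ℝ, x + s • b 0 + t • b 1 ∈ A → τ₁ ≤ t ∧ t ≤ τ₂)
    (hα : ∀ s t : ℝ, x + s • b 0 + t • b 1 ∈ A → α t ≤ s)
    (hc : ∀ t, τ₁ ≤ t → t ≤ τ₂ → t ≠ 0 ∨ 0 < α t)
    (hM : ∀ t, τ₁ ≤ t → t ≤ τ₂ → ∀ u v, α t ≤ u → u ≤ v →
      |∫ s in u..v, gk R (√(s ^ 2 + t ^ 2))| ≤ M) :
    |VA R A x| ≤ N * M * (τ₂ - τ₁) := by
  have hf : volume A < ⊤ := hb.measure_lt_top
  have hM0 : 0 ≤ M := by
    have := hM τ₁ le_rfl hτ (α τ₁) (α τ₁) le_rfl le_rfl
    exact (abs_nonneg _).trans this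
  have hb0 : b 0 ≠ 0 := b.orthonormal.ne_zero 0
  rw [VA_coord b hA, Measure.volume_eq_prod, integral_prod_symm _ (by
    rw [← Measure.volume_eq_prod]; exact Fc_int b hR hA hf)]
  have hz : ∀ t, t ∉ Icc τ₁ τ₂ → ∫ s, Fc b R A x (s, t) = 0 := by
    intro t ht
    have : (fun s => Fc b R A x (s, t)) = fun _ => 0 := by
      funext s
      unfold Fc
      rw [indicator_of_notMem]
      intro h
      exact ht (hout s t h)
    rw [this, integral_zero]
  rw [← setIntegral_eq_integral_of_forall_compl_eq_zero hz, ← Real.norm_eq_abs]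
  refine (norm_setIntegral_le_of_norm_le_const (C := N * M) ?_ fun t ht => ?_).trans ?_
  · rw [Real.volume_Icc]; exact ENNReal.ofReal_lt_top
  · obtain ⟨B, hB0, hB⟩ := bdd_line (p := x + t • b 1) hb hb0
    have hTm : MeasurableSet {s : ℝ | x + t • b 1 + s • b 0 ∈ A} :=
      hA.preimage (by fun_prop : Measurable fun s : ℝ => x + t • b 1 + s • b 0)
    have e1 : ∫ s, Fc b R A x (s, t) =
        ∫ s in {s : ℝ | x + t • b 1 + s • b 0 ∈ A}, gk R (√(s ^ 2 + t ^ 2)) := by
      rw [← integral_indicator hTm]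
      refine integral_congr_ae (Eventually.of_forall fun s => ?_)
      change Fc b R A x (s, t) = _
      unfold Fc
      have hcm : x + s • b 0 + t • b 1 = x + t • b 1 + s • b 0 := by abel
      by_cases h : x + t • b 1 + s • b 0 ∈ A
      · rw [indicator_of_mem (s := {s : ℝ | x + t • b 1 + s • b 0 ∈ A}) h, indicator_of_mem]
        rw [mem_ofPred_eq]; simp only; rw [hcm]; exact h
      · rw [indicator_of_notMem (s := {s : ℝ | x + t • b 1 + s • b 0 ∈ A}) h,
          indicator_of_notMem]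
        rw [mem_ofPred_eq]; simp only; rw [hcm]; exact h
    rw [e1, Real.norm_eq_abs]
    have hsub : {s : ℝ | x + t • b 1 + s • b 0 ∈ A} ⊆ Icc (α t) (max (α t) B) := by
      intro s hs
      refine ⟨hα s t ?_, (hB hs).2.trans (le_max_right _ _)⟩
      have hcm : x + s • b 0 + t • b 1 = x + t • b 1 + s • b 0 := by abel
      rw [hcm]; exact hs
    refine nint_bound (hN (x + t • b 1) (b 0) hb0) (le_max_left _ _) hsub ?_ ?_
    · have h1 := chord_cont (R := R) (h := t) (α t) (max (α t) B) (hc t ht.1 ht.2)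
        (le_max_left _ _)
      rw [uIcc_of_le (le_max_left _ _)] at h1
      exact h1.integrableOn_Icc
    · exact fun u v hu huv _ => hM t ht.1 ht.2 u v hu huv
  · rw [measureReal_def, Real.volume_Icc, ENNReal.toReal_ofReal (by linarith)]

/-- `A` lies in the rectangle with centre `c`, half sides `d₂` along `b 0` and `d₁` along `b 1` -/
def InRect (b : OrthonormalBasis (Fin 2) ℝ E2) (c : E2) (d₁ d₂ : ℝ) (A : Set E2) : Prop :=
  ∀ y ∈ A, |⟪b 0, y - c⟫| ≤ d₂ ∧ |⟪b 1, y - c⟫| ≤ d₁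

lemma inner_coord (b : OrthonormalBasis (Fin 2) ℝ E2) (x c : E2) (s t : ℝ) :
    ⟪b 0, x + s • b 0 + t • b 1 - c⟫ = ⟪b 0, x - c⟫ + s ∧
    ⟪b 1, x + s • b 0 + t • b 1 - c⟫ = ⟪b 1, x - c⟫ + t := by
  have h01 : ⟪b 0, b 1⟫ = (0 : ℝ) := b.inner_eq_zero (by decide)
  have h10 : ⟪b 1, b 0⟫ = (0 : ℝ) := b.inner_eq_zero (by decide)
  have h00 : ⟪b 0, b 0⟫ = (1 : ℝ) := by rw [real_inner_self_eq_norm_sq, b.norm_eq_one]; norm_num
  have h11 : ⟪b 1, b 1⟫ = (1 : ℝ) := by rw [real_inner_self_eq_norm_sq, b.norm_eq_one]; norm_num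
  have e : x + s • b 0 + t • b 1 - c = (x - c) + s • b 0 + t • b 1 := by abel
  rw [e]
  constructor
  · rw [inner_add_right, inner_add_right, real_inner_smul_right, real_inner_smul_right, h00, h01]
    ring
  · rw [inner_add_right, inner_add_right, real_inner_smul_right, real_inner_smul_right, h10, h11]
    ring

/-- the bound through the chords parallel to the long side -/
theorem near_bound (b : OrthonormalBasis (Fin 2) ℝ E2) (hR : 0 < R) (hA : MeasurableSet A)
    (hb : Bornology.IsBounded A) (hN : LineN N A) {c : E2} {d₁ d₂ : ℝ} (hd₁ : 0 < d₁)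
    (hr : InRect b c d₁ d₂ A) (hx : 2 * d₁ ≤ |⟪b 1, x - c⟫|) :
    |VA R A x| ≤ 24 * N * d₁ / |⟪b 1, x - c⟫| := by
  obtain ⟨r, hrb⟩ := hb.subset_closedBall x
  set τ : ℝ := ⟪b 1, x - c⟫ with hτ
  have hτ0 : 0 < |τ| := by linarith
  have hout : ∀ s t : ℝ, x + s • b 0 + t • b 1 ∈ A → -τ - d₁ ≤ t ∧ t ≤ -τ + d₁ := by
    intro s t h
    have h1 := (hr _ h).2
    rw [(inner_coord b x c s t).2] at h1
    have := abs_le.1 h1
    constructor <;> linarith [this.1, this.2]
  have ht : ∀ t, -τ - d₁ ≤ t → t ≤ -τ + d₁ → |τ| / 2 ≤ |t| := by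
    intro t h1 h2
    have h3 : |τ + t| ≤ d₁ := abs_le.2 ⟨by linarith, by linarith⟩
    have h4 : |τ| ≤ |τ + t| + |t| := by
      calc |τ| = |(τ + t) - t| := by rw [add_sub_cancel_right]
        _ ≤ _ := abs_sub _ _
    linarith
  have hα : ∀ s t : ℝ, x + s • b 0 + t • b 1 ∈ A → -|r| ≤ s := by
    intro s t h
    have h1 : ‖x + s • b 0 + t • b 1 - x‖ ≤ r := by
      rw [← dist_eq_norm]; exact Metric.mem_closedBall.1 (hrb h)
    have h2 := (inner_coord b x x s t).1
    rw [sub_self, inner_zero_right, zero_add] at h2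
    have h3 := abs_real_inner_le_norm (b 0) (x + s • b 0 + t • b 1 - x)
    rw [h2, b.norm_eq_one, one_mul] at h3
    have := (abs_le.1 (h3.trans (h1.trans (le_abs_self r)))).1
    linarith
  have h := slice_bound b hR hA hb hN (x := x) (M := 6 / (|τ| / 2)) (τ₁ := -τ - d₁)
    (τ₂ := -τ + d₁) (α := fun _ => -|r|) (by linarith) hout hα
    (fun t h1 h2 => Or.inl (abs_pos.1 (lt_of_lt_of_le (by positivity) (ht t h1 h2))))
    (fun t h1 h2 u v _ _ => by
      have h3 := ht t h1 h2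
      have h4 : 0 < |t| := lt_of_lt_of_le (by positivity) h3
      refine (chord_near hR (abs_pos.1 h4)).trans ?_
      gcongr)
  refine h.trans (le_of_eq ?_)
  field_simp
  ring

/-- the bound far away from the rectangle -/
theorem far_bound (b : OrthonormalBasis (Fin 2) ℝ E2) (hR : 0 < R) (hA : MeasurableSet A)
    (hb : Bornology.IsBounded A) (hN : LineN N A) {c : E2} {d₁ d₂ : ℝ}
    (hd : 0 < d₂) (hd₁₂ : d₁ ≤ d₂) (hr : InRect b c d₁ d₂ A) (hx : 8 * d₂ ≤ ‖x - c‖) :
    |VA R A x| ^ 2 ≤ 256 * N * (d₂ / ‖x - c‖) ^ 3 := by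
  set r : ℝ := ‖x - c‖ with hrr
  have hr0 : 0 < r := by linarith
  set q : ℝ := r / 2 with hq
  have hq0 : 0 < q := by positivity
  have hsR : 0 < √R := sqrt_pos.2 hR
  have hsq : 0 < √q := sqrt_pos.2 hq0
  have hy : ∀ y ∈ A, ‖y - c‖ ≤ 2 * d₂ := by
    intro y hyA
    obtain ⟨h1, h2⟩ := hr y hyA
    have h3 := norm_sq_coord b (y - c)
    have h4 : |⟪b 1, y - c⟫| ≤ d₂ := h2.trans hd₁₂
    have h5 : ⟪b 0, y - c⟫ ^ 2 ≤ d₂ ^ 2 := sq_le_sq' (by linarith [(abs_le.1 h1).1]) (abs_le.1 h1).2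
    have h6 : ⟪b 1, y - c⟫ ^ 2 ≤ d₂ ^ 2 := sq_le_sq' (by linarith [(abs_le.1 h4).1]) (abs_le.1 h4).2
    refine abs_le_of_sq_le_sq' ?_ (by linarith) |>.2
    nlinarith
  -- the trivial bound
  have hvol : volume.real A ≤ 4 * d₂ ^ 2 := by
    have h1 : volume A ≤ ENNReal.ofReal (4 * d₂ ^ 2) := by
      have h2 : A ⊆ (fun y => ceq b (y - c)) ⁻¹' (Icc (-d₂) d₂ ×ˢ Icc (-d₂) d₂) := by
        intro y hyA
        obtain ⟨h1, h2⟩ := hr y hyA
        rw [mem_preimage, ceq_apply]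
        exact ⟨abs_le.1 h1, abs_le.1 (h2.trans hd₁₂)⟩
      refine (measure_mono h2).trans ?_
      have mp : MeasurePreserving (fun y => ceq b (y - c)) volume volume :=
        (ceq_mp b).comp (measurePreserving_sub_right volume c)
      rw [mp.measure_preimage (measurableSet_Icc.prod measurableSet_Icc).nullMeasurableSet,
        Measure.volume_eq_prod, Measure.prod_prod, Real.volume_Icc,
        ← ENNReal.ofReal_mul (by linarith)]
      exact ENNReal.ofReal_le_ofReal (by nlinarith)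
    rw [measureReal_def]
    exact ENNReal.toReal_le_of_le_ofReal (by positivity) h1
  have F2 : |VA R A x| ≤ 8 * d₂ ^ 2 * √R / (√q * q) := by
    have hf : volume A < ⊤ := hb.measure_lt_top
    have h1 : |VA R A x| ≤ 2 * √R / (q * √q) * volume.real A := by
      rw [VA, ← Real.norm_eq_abs]
      refine norm_setIntegral_le_of_norm_le_const hf fun y hyA => ?_
      have h2 : q ≤ ‖x - y‖ := by
        have h3 := hy y hyA
        have h4 : r ≤ ‖x - y‖ + ‖y - c‖ := by
          rw [hrr]; exact norm_sub_le_norm_sub_add_norm_sub x y c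
        linarith
      have h5 : 0 < ‖x - y‖ := hq0.trans_le h2
      rw [Real.norm_eq_abs]
      refine (gk_le hR h5).trans ?_
      have : √q ≤ √‖x - y‖ := sqrt_le_sqrt h2
      gcongr
    refine h1.trans ?_
    calc 2 * √R / (q * √q) * volume.real A ≤ 2 * √R / (q * √q) * (4 * d₂ ^ 2) := by gcongr
      _ = 8 * d₂ ^ 2 * √R / (√q * q) := by ring
  -- slicing in the direction of the centre
  have F1 : |VA R A x| ≤ 4 * d₂ * N / (√R * √q * q) := by
    obtain ⟨b', hb'⟩ := exists_basis (e := r⁻¹ • (c - x)) (by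
      rw [norm_smul, norm_inv, Real.norm_eq_abs, abs_of_pos hr0, norm_sub_rev, ← hrr,
        inv_mul_cancel₀ hr0.ne'])
    have i0 : ⟪b' 0, x - c⟫ = -r := by
      rw [hb', real_inner_smul_left, ← neg_sub x c, inner_neg_left, real_inner_self_eq_norm_sq,
        ← hrr]
      field_simp
    have i1 : ⟪b' 1, x - c⟫ = 0 := by
      have h1 := norm_sq_coord b' (x - c)
      rw [i0, ← hrr] at h1
      nlinarith
    have hs : ∀ s t : ℝ, x + s • b' 0 + t • b' 1 ∈ A → |-r + s| ≤ 2 * d₂ ∧ |t| ≤ 2 * d₂ := by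
      intro s t h
      have h1 := hy _ h
      have h2 := inner_coord b' x c s t
      rw [i0, i1, zero_add] at h2
      have h3 := abs_real_inner_le_norm (b' 0) (x + s • b' 0 + t • b' 1 - c)
      have h4 := abs_real_inner_le_norm (b' 1) (x + s • b' 0 + t • b' 1 - c)
      rw [b'.norm_eq_one, one_mul, h2.1] at h3
      rw [b'.norm_eq_one, one_mul, h2.2] at h4
      exact ⟨h3.trans h1, h4.trans h1⟩
    have h := slice_bound b' hR hA hb hN (x := x) (M := 1 / (√R * √q * q)) (τ₁ := -(2 * d₂))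
      (τ₂ := 2 * d₂) (α := fun _ => q) (by linarith)
      (fun s t h => abs_le.1 (hs s t h).2)
      (fun s t h => by have := (abs_le.1 (hs s t h).1).1; linarith)
      (fun t _ _ => Or.inr hq0)
      (fun t _ _ u v hu huv => chord_far hR hq0 hu huv)
    refine h.trans (le_of_eq ?_)
    ring
  have h1 : |VA R A x| ^ 2 ≤ 4 * d₂ * N / (√R * √q * q) * (8 * d₂ ^ 2 * √R / (√q * q)) := by
    rw [sq]
    exact mul_le_mul F1 F2 (abs_nonneg _) (by positivity)
  refine h1.trans (le_of_eq ?_)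
  have hqq : √q * √q = q := mul_self_sqrt hq0.le
  have h2 : 4 * d₂ * N / (√R * √q * q) * (8 * d₂ ^ 2 * √R / (√q * q))
      = 32 * N * d₂ ^ 3 / ((√q * √q) * q ^ 2) := by
    field_simp
    ring
  rw [h2, hqq, hq]
  field_simp
  ring

end Pool.Agent.Helper854_QC
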