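import Mathlib
import Pool.Agent.Helper854_QC.E

/-! The integrated bound for the maximal partial sum of an indicator function. -/

set_option autoImplicit false

open MeasureTheory Real Set Filter Topology
open scoped ENNReal NNReal RealInnerProductSpace

namespace Pool.Agent.Helper854_QC

variable {R : ℝ} {A : Set E2} {x : E2} {N : ℕ}

lemma comb1 (b : OrthonormalBasis (Fin 2) ℝ E2) (hR : 0 < R) (hA : MeasurableSet A)
    (hb : Bornology.IsBounded A) (hN : LineN N A) {c : E2} {d₁ d₂ : ℝ} (hd₁ : 0 < d₁)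
    (hr : InRect b c d₁ d₂ A) :
    |VA R A x| ^ 2 ≤ (54 * N) ^ 2 * ((1 + |⟪b 1, x - c⟫ / d₁|)⁻¹) ^ 2 := by
  rw [← mul_pow]
  refine pow_le_pow_left₀ (abs_nonneg _) ?_ 2
  set τ : ℝ := ⟪b 1, x - c⟫ with hτ
  have hN0 : (0 : ℝ) ≤ N := Nat.cast_nonneg N
  have e : (1 + |τ / d₁|)⁻¹ = d₁ / (d₁ + |τ|) := by
    rw [abs_div, abs_of_pos hd₁]; field_simp
  rw [e]
  rcases le_or_gt (2 * d₁) |τ| with h | h
  · have h1 := near_bound b hR hA hb hN hd₁ hr h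
    rw [← hτ] at h1
    have h2 : 0 < |τ| := by linarith
    refine h1.trans ?_
    rw [mul_div_assoc' (54 * (N : ℝ)), div_le_div_iff₀ h2 (by positivity)]
    have : 0 ≤ (N : ℝ) * d₁ := by positivity
    nlinarith
  · refine (polar_bound hR hA hb hN).trans ?_
    rw [mul_div_assoc' (54 * (N : ℝ)), le_div_iff₀ (by positivity)]
    nlinarith

lemma comb2 (b : OrthonormalBasis (Fin 2) ℝ E2) (hR : 0 < R) (hA : MeasurableSet A)
    (hb : Bornology.IsBounded A) (hN : LineN N A) {c : E2} {d₁ d₂ : ℝ} (hd₂ : 0 < d₂)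
    (hd₁₂ : d₁ ≤ d₂) (hr : InRect b c d₁ d₂ A) :
    |VA R A x| ^ 2 ≤ (54 * N) ^ 2 * ((1 + |⟪b 0, x - c⟫ / d₂|)⁻¹) ^ 3 := by
  set σ : ℝ := ⟪b 0, x - c⟫ with hσ
  have hN0 : (0 : ℝ) ≤ N := Nat.cast_nonneg N
  have hNN : (N : ℝ) ≤ N ^ 2 := by exact_mod_cast Nat.le_self_pow (by norm_num) N
  have e : (1 + |σ / d₂|)⁻¹ = d₂ / (d₂ + |σ|) := by
    rw [abs_div, abs_of_pos hd₂]; field_simp
  rw [e]
  have hs : |σ| ≤ ‖x - c‖ := by
    have h3 := abs_real_inner_le_norm (b 0) (x - c)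
    rwa [b.norm_eq_one, one_mul] at h3
  have hs0 := abs_nonneg σ
  rcases le_or_gt (8 * d₂) ‖x - c‖ with h | h
  · have h1 := far_bound b hR hA hb hN hd₂ hd₁₂ hr h
    refine h1.trans ?_
    have hr0 : 0 < ‖x - c‖ := by linarith
    have h2 : d₂ / ‖x - c‖ ≤ 9 / 8 * (d₂ / (d₂ + |σ|)) := by
      rw [mul_div_assoc', div_le_div_iff₀ hr0 (by positivity)]
      nlinarith
    have h3 : (d₂ / ‖x - c‖) ^ 3 ≤ (9 / 8 * (d₂ / (d₂ + |σ|))) ^ 3 :=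
      pow_le_pow_left₀ (by positivity) h2 3
    have h4 : 0 ≤ (d₂ / (d₂ + |σ|)) ^ 3 := by positivity
    calc 256 * (N : ℝ) * (d₂ / ‖x - c‖) ^ 3 ≤ 256 * (N : ℝ) ^ 2 * (9 / 8 * (d₂ / (d₂ + |σ|))) ^ 3 := by
          gcongr
      _ = 364.5 * (N : ℝ) ^ 2 * (d₂ / (d₂ + |σ|)) ^ 3 := by ring
      _ ≤ (54 * N) ^ 2 * (d₂ / (d₂ + |σ|)) ^ 3 := by
          refine mul_le_mul_of_nonneg_right ?_ h4
          nlinarith [sq_nonneg (N : ℝ)]
  · have h1 := polar_bound (x := x) hR hA hb hN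
    have h2 : 1 / 9 ≤ d₂ / (d₂ + |σ|) := by
      rw [div_le_div_iff₀ (by norm_num) (by positivity)]
      nlinarith
    have h3 : (1 / 9 : ℝ) ^ 3 ≤ (d₂ / (d₂ + |σ|)) ^ 3 := pow_le_pow_left₀ (by norm_num) h2 3
    calc |VA R A x| ^ 2 ≤ (2 * N) ^ 2 := pow_le_pow_left₀ (abs_nonneg _) h1 2
      _ = (54 * N) ^ 2 * (1 / 9 : ℝ) ^ 3 := by ring
      _ ≤ (54 * N) ^ 2 * (d₂ / (d₂ + |σ|)) ^ 3 := by gcongr

lemma rpow_comb {v w w' K : ℝ} (hv : 0 ≤ v) (hw : 0 ≤ w) (hw' : 0 ≤ w') (hK : 0 ≤ K)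
    (h1 : v ^ 2 ≤ K ^ 2 * w ^ 2) (h2 : v ^ 2 ≤ K ^ 2 * w' ^ 3) :
    v ^ (15 / 8 : ℝ) ≤ K ^ (15 / 8 : ℝ) * (w ^ (9 / 8 : ℝ) * w' ^ (9 / 8 : ℝ)) := by
  have e1 : v ^ (15 / 8 : ℝ) = (v ^ 2) ^ (9 / 16 : ℝ) * (v ^ 2) ^ (6 / 16 : ℝ) := by
    rw [← rpow_add_of_nonneg (by positivity) (by norm_num) (by norm_num), ← rpow_natCast v 2,
      ← rpow_mul hv]
    norm_num
  have h3 : (v ^ 2) ^ (9 / 16 : ℝ) ≤ (K ^ 2 * w ^ 2) ^ (9 / 16 : ℝ) :=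
    rpow_le_rpow (by positivity) h1 (by norm_num)
  have h4 : (v ^ 2) ^ (6 / 16 : ℝ) ≤ (K ^ 2 * w' ^ 3) ^ (6 / 16 : ℝ) :=
    rpow_le_rpow (by positivity) h2 (by norm_num)
  have e2 : (K ^ 2 * w ^ 2) ^ (9 / 16 : ℝ) = K ^ (9 / 8 : ℝ) * w ^ (9 / 8 : ℝ) := by
    rw [mul_rpow (by positivity) (by positivity), ← rpow_natCast K 2, ← rpow_natCast w 2,
      ← rpow_mul hK, ← rpow_mul hw]
    norm_num
  have e3 : (K ^ 2 * w' ^ 3) ^ (6 / 16 : ℝ) = K ^ (6 / 8 : ℝ) * w' ^ (9 / 8 : ℝ) := by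
    rw [mul_rpow (by positivity) (by positivity), ← rpow_natCast K 2, ← rpow_natCast w' 3,
      ← rpow_mul hK, ← rpow_mul hw']
    norm_num
  have e4 : K ^ (15 / 8 : ℝ) = K ^ (9 / 8 : ℝ) * K ^ (6 / 8 : ℝ) := by
    rw [← rpow_add_of_nonneg hK (by norm_num) (by norm_num)]
    norm_num
  rw [e1]
  calc (v ^ 2) ^ (9 / 16 : ℝ) * (v ^ 2) ^ (6 / 16 : ℝ)
      ≤ (K ^ 2 * w ^ 2) ^ (9 / 16 : ℝ) * (K ^ 2 * w' ^ 3) ^ (6 / 16 : ℝ) :=
        mul_le_mul h3 h4 (by positivity) (by positivity)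
    _ = K ^ (15 / 8 : ℝ) * (w ^ (9 / 8 : ℝ) * w' ^ (9 / 8 : ℝ)) := by rw [e2, e3, e4]; ring

/-- the one dimensional weight -/
noncomputable def wg (u : ℝ) : ℝ≥0∞ := ENNReal.ofReal ((1 + ‖u‖) ^ (-(9 / 8) : ℝ))

lemma wg_meas : Measurable wg := by unfold wg; fun_prop

/-- its integral -/
noncomputable def c0 : ℝ≥0∞ := ∫⁻ u : ℝ, wg u

lemma c0_lt : c0 < ⊤ := finite_integral_one_add_norm (by simp; norm_num)

lemma wg_scale {d : ℝ} (hd : 0 < d) : ∫⁻ u : ℝ, wg (u / d) = ENNReal.ofReal d * c0 := by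
  have h := Real.smul_map_volume_mul_left (a := d⁻¹) (inv_ne_zero hd.ne')
  have hm : Measurable fun u : ℝ => d⁻¹ * u := by fun_prop
  have h1 : ENNReal.ofReal |d⁻¹| * ∫⁻ u : ℝ, wg (u / d) = c0 := by
    rw [c0]
    conv_rhs => rw [← h]
    rw [lintegral_smul_measure, lintegral_map wg_meas hm, smul_eq_mul]
    congr 1
    refine lintegral_congr fun u => ?_
    rw [div_eq_inv_mul]
  rw [← h1, ← mul_assoc, ← ENNReal.ofReal_mul hd.le, abs_of_pos (inv_pos.2 hd),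
    mul_inv_cancel₀ hd.ne', ENNReal.ofReal_one, one_mul]

lemma int_rect (b : OrthonormalBasis (Fin 2) ℝ E2) (c : E2) {d₁ d₂ : ℝ} (h₁ : 0 < d₁)
    (h₂ : 0 < d₂) : ∫⁻ x : E2, wg (⟪b 1, x - c⟫ / d₁) * wg (⟪b 0, x - c⟫ / d₂)
      = ENNReal.ofReal (d₁ * d₂) * c0 ^ 2 := by
  have mp : MeasurePreserving (fun y => ceq b (y - c)) volume volume :=
    (ceq_mp b).comp (measurePreserving_sub_right volume c)
  have m1 : Measurable fun u : ℝ => wg (u / d₁) := wg_meas.comp (by fun_prop)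
  have m2 : Measurable fun u : ℝ => wg (u / d₂) := wg_meas.comp (by fun_prop)
  have h := mp.lintegral_comp (f := fun p : ℝ × ℝ => wg (p.1 / d₂) * wg (p.2 / d₁))
    ((m2.comp measurable_fst).mul (m1.comp measurable_snd))
  have e1 : ∫⁻ x : E2, wg (⟪b 1, x - c⟫ / d₁) * wg (⟪b 0, x - c⟫ / d₂)
      = ∫⁻ x : E2, wg ((ceq b (x - c)).1 / d₂) * wg ((ceq b (x - c)).2 / d₁) := by
    refine lintegral_congr fun x => ?_
    rw [ceq_apply, mul_comm]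
  rw [e1, h, Measure.volume_eq_prod, lintegral_prod_mul m2.aemeasurable m1.aemeasurable,
    wg_scale h₁, wg_scale h₂, ENNReal.ofReal_mul h₁.le]
  ring

/-- the maximal function -/
noncomputable def MA (A : Set E2) (x : E2) : ℝ≥0∞ := ⨆ (R : ℝ) (_ : 0 < R), ‖VA R A x‖ₑ

theorem MA_pt (b : OrthonormalBasis (Fin 2) ℝ E2) (hA : MeasurableSet A)
    (hb : Bornology.IsBounded A) (hN : LineN N A) {c : E2} {d₁ d₂ : ℝ} (hd₁ : 0 < d₁)
    (hd₁₂ : d₁ ≤ d₂) (hr : InRect b c d₁ d₂ A) (x : E2) :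
    MA A x ^ (15 / 8 : ℝ) ≤ ENNReal.ofReal ((54 * N) ^ (15 / 8 : ℝ)) *
      (wg (⟪b 1, x - c⟫ / d₁) * wg (⟪b 0, x - c⟫ / d₂)) := by
  have hd₂ : 0 < d₂ := hd₁.trans_le hd₁₂
  have hp : (0 : ℝ) < 15 / 8 := by norm_num
  rw [← ENNReal.le_rpow_inv_iff hp, MA]
  refine iSup₂_le fun R hR => ?_
  rw [ENNReal.le_rpow_inv_iff hp]
  have h1 := comb1 (x := x) b hR hA hb hN hd₁ hr
  have h2 := comb2 (x := x) b hR hA hb hN hd₂ hd₁₂ hr
  have h3 := rpow_comb (abs_nonneg _) (by positivity) (by positivity) (by positivity) h1 h2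
  rw [wg, wg, ← ENNReal.ofReal_mul (by positivity), ← ENNReal.ofReal_mul (by positivity),
    ← ofReal_norm, ENNReal.ofReal_rpow_of_nonneg (norm_nonneg _) hp.le,
    Real.norm_eq_abs]
  refine ENNReal.ofReal_le_ofReal (h3.trans (le_of_eq ?_))
  rw [Real.norm_eq_abs, Real.norm_eq_abs, rpow_neg (by positivity), rpow_neg (by positivity),
    inv_rpow (by positivity), inv_rpow (by positivity)]

end Pool.Agent.Helper854_QC
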