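import Mathlib
import Pool.Agent.Helper854_QC.F

/-! The class of sets, and a one dimensional inequality. -/

set_option autoImplicit false

open MeasureTheory Real Set Filter Topology
open scoped ENNReal NNReal RealInnerProductSpace

namespace Pool.Agent.Helper854_QC

/-- almost everywhere, `1_K` is a combination, with coefficients in `[-1, 1]`, of at most `N`
indicator functions of sets which meet every line in at most `N` intervals and lie in rectangles of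
area at most `N |K|` -/
def Nice (N : ℕ) (K : Set E2) : Prop :=
  ∃ m ≤ N, ∃ (A : Fin m → Set E2) (ε : Fin m → ℝ),
    (∀ i, |ε i| ≤ 1 ∧ MeasurableSet (A i) ∧ LineN N (A i) ∧
      ∃ (b : OrthonormalBasis (Fin 2) ℝ E2) (c : E2) (d₁ d₂ : ℝ), 0 < d₁ ∧ d₁ ≤ d₂ ∧
        InRect b c d₁ d₂ (A i) ∧ ENNReal.ofReal (4 * d₁ * d₂) ≤ N * volume K) ∧
    ∀ᵐ y, K.indicator (1 : E2 → ℝ) y = ∑ i, ε i * (A i).indicator (1 : E2 → ℝ) y

lemma InRect.bdd {b : OrthonormalBasis (Fin 2) ℝ E2} {c : E2} {d₁ d₂ : ℝ} {A : Set E2}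
    (h : InRect b c d₁ d₂ A) : Bornology.IsBounded A := by
  refine (Metric.isBounded_closedBall (x := c) (r := |d₂| + |d₁|)).subset fun y hy => ?_
  obtain ⟨h1, h2⟩ := h y hy
  rw [mem_closedBall_iff_norm]
  have h3 := norm_sq_coord b (y - c)
  refine abs_le_of_sq_le_sq' ?_ (by positivity) |>.2
  have h4 : ⟪b 0, y - c⟫ ^ 2 ≤ |d₂| ^ 2 := by
    rw [← sq_abs]; exact pow_le_pow_left₀ (abs_nonneg _) (h1.trans (le_abs_self _)) 2
  have h5 : ⟪b 1, y - c⟫ ^ 2 ≤ |d₁| ^ 2 := by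
    rw [← sq_abs]; exact pow_le_pow_left₀ (abs_nonneg _) (h2.trans (le_abs_self _)) 2
  nlinarith [abs_nonneg d₁, abs_nonneg d₂]

lemma VA_ind {R : ℝ} {A : Set E2} {x : E2} (hA : MeasurableSet A) :
    VA R A x = ∫ y, A.indicator (1 : E2 → ℝ) y * gk R ‖x - y‖ := by
  rw [VA, ← integral_indicator hA]
  refine integral_congr_ae (Eventually.of_forall fun y => ?_)
  by_cases h : y ∈ A
  · simp [h]
  · simp [h]

lemma int_fin' {R : ℝ} {A : Set E2} {x : E2} (hR : 0 < R) (hA : MeasurableSet A)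
    (hf : volume A < ⊤) : Integrable fun y => A.indicator (1 : E2 → ℝ) y * gk R ‖x - y‖ := by
  refine (int_fin (x := x) hR hA hf).congr (Eventually.of_forall fun y => ?_)
  by_cases h : y ∈ A
  · simp [h]
  · simp [h]

lemma VA_comb {R : ℝ} (hR : 0 < R) {K : Set E2} (hK : MeasurableSet K) {m : ℕ}
    {A : Fin m → Set E2} {ε : Fin m → ℝ} (hA : ∀ i, MeasurableSet (A i))
    (hf : ∀ i, volume (A i) < ⊤)
    (h : ∀ᵐ y, K.indicator (1 : E2 → ℝ) y = ∑ i, ε i * (A i).indicator (1 : E2 → ℝ) y) (x : E2) :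
    VA R K x = ∑ i, ε i * VA R (A i) x := by
  rw [VA_ind hK]
  have e1 : ∫ y, K.indicator (1 : E2 → ℝ) y * gk R ‖x - y‖
      = ∫ y, ∑ i, ε i * ((A i).indicator (1 : E2 → ℝ) y * gk R ‖x - y‖) := by
    refine integral_congr_ae ?_
    filter_upwards [h] with y hy
    rw [hy, Finset.sum_mul]
    exact Finset.sum_congr rfl fun i _ => by ring
  rw [e1, integral_finsetSum _ fun i _ => (int_fin' hR (hA i) (hf i)).const_mul _]
  refine Finset.sum_congr rfl fun i _ => ?_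
  rw [integral_const_mul, VA_ind (hA i)]

lemma nice_bound {N : ℕ} {K : Set E2} (hK : MeasurableSet K) (h : Nice N K) {R : ℝ} (hR : 0 < R)
    (x : E2) : |VA R K x| ≤ 2 * N ^ 2 := by
  obtain ⟨m, hm, A, ε, hA, hc⟩ := h
  rw [VA_comb hR hK (fun i => (hA i).2.1) (fun i => by
    obtain ⟨-, -, -, b, c, d₁, d₂, -, -, hr, -⟩ := hA i
    exact hr.bdd.measure_lt_top) hc]
  refine (Finset.abs_sum_le_sum_abs _ _).trans ?_
  have h1 : ∀ i ∈ Finset.univ, |ε i * VA R (A i) x| ≤ 2 * (N : ℝ) := by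
    intro i _
    obtain ⟨h1, h2, h3, b, c, d₁, d₂, -, -, hr, -⟩ := hA i
    rw [abs_mul]
    calc |ε i| * |VA R (A i) x| ≤ 1 * (2 * N) :=
          mul_le_mul h1 (polar_bound hR h2 hr.bdd h3) (abs_nonneg _) (by norm_num)
      _ = 2 * N := one_mul _
  refine (Finset.sum_le_sum h1).trans ?_
  rw [Finset.sum_const, Finset.card_univ, Fintype.card_fin, nsmul_eq_mul]
  have : (m : ℝ) ≤ N := by exact_mod_cast hm
  have hN : (0 : ℝ) ≤ N := Nat.cast_nonneg N
  nlinarith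

/-- the constant for one set -/
noncomputable def kN (N : ℕ) : ℝ≥0∞ :=
  (N : ℝ≥0∞) ^ (15 / 8 - 1 : ℝ) * (N * (ENNReal.ofReal ((54 * N) ^ (15 / 8 : ℝ)) * (c0 ^ 2 * N)))

lemma kN_ne_top (N : ℕ) : kN N ≠ ⊤ := by
  have h1 : (N : ℝ≥0∞) ^ (15 / 8 - 1 : ℝ) ≠ ⊤ :=
    ENNReal.rpow_ne_top_of_nonneg (by norm_num) (ENNReal.natCast_ne_top N)
  exact ENNReal.mul_ne_top h1 (ENNReal.mul_ne_top (ENNReal.natCast_ne_top N)
    (ENNReal.mul_ne_top ENNReal.ofReal_ne_top (ENNReal.mul_ne_top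
      (ENNReal.pow_ne_top c0_lt.ne) (ENNReal.natCast_ne_top N))))

theorem nice_int {N : ℕ} {K : Set E2} (hK : MeasurableSet K) (h : Nice N K) :
    ∫⁻ x, MA K x ^ (15 / 8 : ℝ) ≤ kN N * volume K := by
  obtain ⟨m, hm, A, ε, hA, hc⟩ := h
  choose h1 h2 h3 b c d₁ d₂ h4 h5 h6 h7 using hA
  have hp : (1 : ℝ) ≤ 15 / 8 := by norm_num
  have hs : ∀ x, MA K x ≤ ∑ i, MA (A i) x := by
    intro x
    rw [MA]
    refine iSup₂_le fun R hR => ?_
    rw [VA_comb hR hK h2 (fun i => (h6 i).bdd.measure_lt_top) hc]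
    refine (enorm_sum_le _ _).trans (Finset.sum_le_sum fun i _ => ?_)
    rw [enorm_mul]
    have : ‖ε i‖ₑ ≤ 1 := by
      rw [← ofReal_norm, Real.norm_eq_abs]
      exact ENNReal.ofReal_le_one.2 (h1 i)
    calc ‖ε i‖ₑ * ‖VA R (A i) x‖ₑ ≤ 1 * ‖VA R (A i) x‖ₑ := by gcongr
      _ ≤ MA (A i) x := by
        rw [one_mul, MA]
        exact le_iSup₂ (f := fun (R : ℝ) (_ : 0 < R) => ‖VA R (A i) x‖ₑ) R hR
  set W : Fin m → E2 → ℝ≥0∞ := fun i x => ENNReal.ofReal ((54 * N) ^ (15 / 8 : ℝ)) *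
      (wg (⟪(b i) 1, x - c i⟫ / d₁ i) * wg (⟪(b i) 0, x - c i⟫ / d₂ i)) with hW
  have hWm : ∀ i, Measurable (W i) := by
    intro i
    have m1 : Measurable fun x : E2 => wg (⟪(b i) 1, x - c i⟫ / d₁ i) :=
      wg_meas.comp (by fun_prop)
    have m2 : Measurable fun x : E2 => wg (⟪(b i) 0, x - c i⟫ / d₂ i) :=
      wg_meas.comp (by fun_prop)
    exact (m1.mul m2).const_mul _
  have hWi : ∀ i, ∫⁻ x, W i x ≤ ENNReal.ofReal ((54 * N) ^ (15 / 8 : ℝ)) * (c0 ^ 2 * N) *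
      volume K := by
    intro i
    rw [hW]
    simp only
    rw [lintegral_const_mul' _ _ ENNReal.ofReal_ne_top, int_rect (b i) (c i) (h4 i)
      ((h4 i).trans_le (h5 i)), mul_assoc]
    refine mul_le_mul' le_rfl ?_
    have h8 : ENNReal.ofReal (d₁ i * d₂ i) ≤ N * volume K := by
      refine le_trans (ENNReal.ofReal_le_ofReal ?_) (h7 i)
      have : 0 < d₁ i * d₂ i := mul_pos (h4 i) ((h4 i).trans_le (h5 i))
      nlinarith
    calc ENNReal.ofReal (d₁ i * d₂ i) * c0 ^ 2 ≤ N * volume K * c0 ^ 2 := by gcongr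
      _ = c0 ^ 2 * N * volume K := by ring
  calc ∫⁻ x, MA K x ^ (15 / 8 : ℝ) ≤ ∫⁻ x, (m : ℝ≥0∞) ^ (15 / 8 - 1 : ℝ) * ∑ i, W i x := by
        refine lintegral_mono fun x => ?_
        refine (ENNReal.rpow_le_rpow (hs x) (by norm_num)).trans ?_
        have h8 := ENNReal.rpow_sum_le_const_mul_sum_rpow (Finset.univ : Finset (Fin m))
          (fun i => MA (A i) x) hp
        rw [Finset.card_univ, Fintype.card_fin] at h8
        refine h8.trans ?_
        gcongr with i _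
        exact MA_pt (b i) (h2 i) (h6 i).bdd (h3 i) (h4 i) (h5 i) (h6 i) x
    _ = (m : ℝ≥0∞) ^ (15 / 8 - 1 : ℝ) * ∑ i, ∫⁻ x, W i x := by
        rw [lintegral_const_mul _ (Finset.measurable_sum _ fun i _ => hWm i),
          lintegral_finsetSum _ fun i _ => hWm i]
    _ ≤ (N : ℝ≥0∞) ^ (15 / 8 - 1 : ℝ) * ∑ i : Fin m,
          ENNReal.ofReal ((54 * N) ^ (15 / 8 : ℝ)) * (c0 ^ 2 * N) * volume K := by
        refine mul_le_mul' (ENNReal.rpow_le_rpow (by exact_mod_cast hm) (by norm_num))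
          (Finset.sum_le_sum fun i _ => hWi i)
    _ ≤ kN N * volume K := by
        rw [Finset.sum_const, Finset.card_univ, Fintype.card_fin, nsmul_eq_mul, kN]
        have : (m : ℝ≥0∞) ≤ N := by exact_mod_cast hm
        calc (N : ℝ≥0∞) ^ (15 / 8 - 1 : ℝ) * (m * (ENNReal.ofReal ((54 * N) ^ (15 / 8 : ℝ)) *
              (c0 ^ 2 * N) * volume K))
            ≤ (N : ℝ≥0∞) ^ (15 / 8 - 1 : ℝ) * (N * (ENNReal.ofReal ((54 * N) ^ (15 / 8 : ℝ)) *
              (c0 ^ 2 * N) * volume K)) := by gcongr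
          _ = _ := by ring

/-- the weight outside `(0, τ]` -/
lemma tail_int {τ : ℝ} (hτ : 0 < τ) :
    ∫⁻ t in Ioi τ, ENNReal.ofReal ((τ / t) ^ (8 / 7 : ℝ)) = ENNReal.ofReal (7 * τ) := by
  have hi : IntegrableOn (fun t : ℝ => t ^ (-(8 / 7) : ℝ)) (Ioi τ) :=
    integrableOn_Ioi_rpow_of_lt (by norm_num) hτ
  have e : EqOn (fun t : ℝ => (τ / t) ^ (8 / 7 : ℝ))
      (fun t => τ ^ (8 / 7 : ℝ) * t ^ (-(8 / 7) : ℝ)) (Ioi τ) := by
    intro t ht
    have ht0 : 0 < t := hτ.trans ht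
    simp only
    rw [div_rpow hτ.le ht0.le, rpow_neg ht0.le, div_eq_mul_inv]
  have hi' : IntegrableOn (fun t : ℝ => (τ / t) ^ (8 / 7 : ℝ)) (Ioi τ) :=
    IntegrableOn.congr_fun (hi.const_mul (τ ^ (8 / 7 : ℝ))) (fun t ht => (e ht).symm)
      measurableSet_Ioi
  rw [← ofReal_integral_eq_lintegral_ofReal hi'
    ((ae_restrict_iff' measurableSet_Ioi).2 (Eventually.of_forall fun t ht => by
      have : 0 < t := hτ.trans ht
      positivity))]
  congr 1
  rw [setIntegral_congr_fun measurableSet_Ioi e, integral_const_mul,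
    integral_Ioi_rpow_of_lt (by norm_num) hτ]
  have e2 : τ ^ (8 / 7 : ℝ) * (-τ ^ (-(8 / 7) + 1 : ℝ) / (-(8 / 7) + 1))
      = 7 * (τ ^ (8 / 7 : ℝ) * τ ^ (-(8 / 7) + 1 : ℝ)) := by ring
  rw [e2, ← rpow_add hτ]
  norm_num

lemma pt_ineq {v : ℝ≥0∞} (hv : v ≤ 1) {t τ : ℝ} (hτ : 0 < τ) (ht : τ < t) :
    v ≤ ENNReal.ofReal ((τ / t) ^ (8 / 7 : ℝ)) + ENNReal.ofReal (1 / τ) *
      (ENNReal.ofReal t * v ^ (15 / 8 : ℝ)) := by
  have ht0 : 0 < t := hτ.trans ht
  lift v to ℝ≥0 using (hv.trans_lt ENNReal.one_lt_top).ne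
  have hp : (0 : ℝ) ≤ 15 / 8 := by norm_num
  rw [← ENNReal.ofReal_coe_nnreal, ENNReal.ofReal_rpow_of_nonneg v.coe_nonneg hp,
    ← ENNReal.ofReal_mul ht0.le, ← ENNReal.ofReal_mul (by positivity),
    ← ENNReal.ofReal_add (by positivity) (by have := v.2; positivity)]
  refine ENNReal.ofReal_le_ofReal ?_
  set w : ℝ := (v : ℝ) with hw
  have hw0 : 0 ≤ w := v.2
  rcases le_or_gt (τ / t) (w ^ (7 / 8 : ℝ)) with h | h
  · have h1 : w ^ (15 / 8 : ℝ) = w * w ^ (7 / 8 : ℝ) := by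
      rcases hw0.eq_or_lt with h0 | h0
      · rw [← h0, zero_rpow (by norm_num), zero_mul]
      · nth_rw 2 [← rpow_one w]
        rw [← rpow_add h0]; norm_num
    have h2 : w ≤ 1 / τ * (t * w ^ (15 / 8 : ℝ)) := by
      rw [h1]
      have h3 : 1 ≤ t / τ * w ^ (7 / 8 : ℝ) := by
        calc (1 : ℝ) = t / τ * (τ / t) := by field_simp
          _ ≤ _ := by gcongr
      calc w = w * 1 := (mul_one w).symm
        _ ≤ w * (t / τ * w ^ (7 / 8 : ℝ)) := by gcongr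
        _ = _ := by ring
    have h4 : 0 ≤ (τ / t) ^ (8 / 7 : ℝ) := by positivity
    linarith
  · have h1 : w = (w ^ (7 / 8 : ℝ)) ^ (8 / 7 : ℝ) := by
      rw [← rpow_mul hw0]; norm_num
    have h2 : w ≤ (τ / t) ^ (8 / 7 : ℝ) := by
      rw [h1]; exact rpow_le_rpow (by positivity) h.le (by norm_num)
    have h4 : 0 ≤ 1 / τ * (t * w ^ (15 / 8 : ℝ)) := by positivity
    linarith

theorem sq_int_le {V : ℝ → ℝ≥0∞} (h1 : ∀ t, V t ≤ 1) :
    (∫⁻ t in Ioi (0 : ℝ), V t) ^ 2 ≤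
      81 * ∫⁻ t in Ioi (0 : ℝ), ENNReal.ofReal t * V t ^ (15 / 8 : ℝ) := by
  set E : ℝ≥0∞ := ∫⁻ t in Ioi (0 : ℝ), ENNReal.ofReal t * V t ^ (15 / 8 : ℝ) with hE
  have key : ∀ τ : ℝ, 0 < τ → ∫⁻ t in Ioi (0 : ℝ), V t ≤
      ENNReal.ofReal (8 * τ) + ENNReal.ofReal (1 / τ) * E := by
    intro τ hτ
    have hpt : ∀ t ∈ Ioi (0 : ℝ), V t ≤ ((Iic τ).indicator (fun _ => (1 : ℝ≥0∞)) t +
        (Ioi τ).indicator (fun t => ENNReal.ofReal ((τ / t) ^ (8 / 7 : ℝ))) t) +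
        ENNReal.ofReal (1 / τ) * (ENNReal.ofReal t * V t ^ (15 / 8 : ℝ)) := by
      intro t _
      rcases le_or_gt t τ with h | h
      · rw [indicator_of_mem (mem_Iic.2 h)]
        exact (h1 t).trans (le_trans le_self_add le_self_add)
      · rw [indicator_of_notMem (by simpa using h), indicator_of_mem (mem_Ioi.2 h), zero_add]
        exact pt_ineq (h1 t) hτ h
    have m1 : Measurable ((Iic τ).indicator (fun _ : ℝ => (1 : ℝ≥0∞))) :=
      measurable_const.indicator measurableSet_Iic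
    have m2 : Measurable ((Ioi τ).indicator (fun t : ℝ => ENNReal.ofReal ((τ / t) ^ (8 / 7 : ℝ)))) :=
      Measurable.indicator (by fun_prop) measurableSet_Ioi
    have m3 : Measurable fun t : ℝ => (Iic τ).indicator (fun _ => (1 : ℝ≥0∞)) t +
        (Ioi τ).indicator (fun t => ENNReal.ofReal ((τ / t) ^ (8 / 7 : ℝ))) t := m1.add m2
    calc ∫⁻ t in Ioi (0 : ℝ), V t ≤ ∫⁻ t in Ioi (0 : ℝ), (((Iic τ).indicator (fun _ => (1 : ℝ≥0∞)) t +
        (Ioi τ).indicator (fun t => ENNReal.ofReal ((τ / t) ^ (8 / 7 : ℝ))) t) +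
        ENNReal.ofReal (1 / τ) * (ENNReal.ofReal t * V t ^ (15 / 8 : ℝ))) :=
          setLIntegral_mono' measurableSet_Ioi hpt
      _ = ((∫⁻ t in Ioi (0 : ℝ), (Iic τ).indicator (fun _ => (1 : ℝ≥0∞)) t) +
          ∫⁻ t in Ioi (0 : ℝ), (Ioi τ).indicator (fun t => ENNReal.ofReal ((τ / t) ^ (8 / 7 : ℝ))) t)
          + ENNReal.ofReal (1 / τ) * E := by
        rw [lintegral_add_left m3, lintegral_add_left m1,
          lintegral_const_mul' _ _ ENNReal.ofReal_ne_top]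
      _ = ENNReal.ofReal (8 * τ) + ENNReal.ofReal (1 / τ) * E := by
        congr 1
        rw [lintegral_indicator measurableSet_Iic, lintegral_indicator measurableSet_Ioi,
          Measure.restrict_restrict measurableSet_Iic, Measure.restrict_restrict measurableSet_Ioi,
          setLIntegral_const, one_mul]
        have e1 : Iic τ ∩ Ioi (0 : ℝ) = Ioc 0 τ := by ext t; simp [and_comm]
        have e2 : Ioi τ ∩ Ioi (0 : ℝ) = Ioi τ := inter_eq_left.2 (Ioi_subset_Ioi hτ.le)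
        rw [e1, e2, tail_int hτ, Real.volume_Ioc, sub_zero, ← ENNReal.ofReal_add hτ.le (by positivity)]
        congr 1; ring
  rcases eq_or_ne E ⊤ with hT | hT
  · rw [hT, ENNReal.mul_top (by norm_num)]; exact le_top
  rcases eq_or_ne E 0 with h0 | h0
  · have h2 : ∫⁻ t in Ioi (0 : ℝ), V t = 0 := by
      refine le_antisymm ?_ zero_le
      refine ENNReal.le_of_forall_pos_le_add fun ε hε _ => ?_
      have h3 := key ((ε : ℝ) / 8) (by have : (0 : ℝ) < ε := by exact_mod_cast hε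
                                       positivity)
      rw [h0, mul_zero, add_zero] at h3
      rw [zero_add]
      refine h3.trans ?_
      rw [show 8 * ((ε : ℝ) / 8) = ε by ring, ENNReal.ofReal_coe_nnreal]
    rw [h2]; simp
  · have hE0 : 0 < E.toReal := ENNReal.toReal_pos h0 hT
    set τ : ℝ := √E.toReal with hτ
    have hτ0 : 0 < τ := sqrt_pos.2 hE0
    have hττ : τ * τ = E.toReal := mul_self_sqrt hE0.le
    have h3 := key τ hτ0
    have h4 : ENNReal.ofReal (1 / τ) * E = ENNReal.ofReal τ := by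
      rw [← ENNReal.ofReal_toReal hT, ← hττ, ← ENNReal.ofReal_mul (by positivity)]
      congr 1; field_simp
    rw [h4, ← ENNReal.ofReal_add (by positivity) hτ0.le] at h3
    calc (∫⁻ t in Ioi (0 : ℝ), V t) ^ 2 ≤ ENNReal.ofReal (8 * τ + τ) ^ 2 := by gcongr
      _ = 81 * E := by
        rw [← ENNReal.ofReal_pow (by positivity), show (8 * τ + τ) ^ 2 = 81 * (τ * τ) by ring, hττ,
          ENNReal.ofReal_mul (by norm_num), ENNReal.ofReal_toReal hT]
        norm_num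

end Pool.Agent.Helper854_QC
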