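import Mathlib
import Pool.Agent.Helper854_QC.G

/-! The layer cake argument. -/

set_option autoImplicit false

open MeasureTheory Real Set Filter Topology
open scoped ENNReal NNReal RealInnerProductSpace

namespace Pool.Agent.Helper854_QC

variable {P : E2 → ℝ} {R : ℝ} {x : E2}

/-- the superlevel sets -/
def Lv (P : E2 → ℝ) (t : ℝ) : Set E2 := {y | t < P y}

lemma Lv_meas (hP : Measurable P) (t : ℝ) : MeasurableSet (Lv P t) :=
  measurableSet_lt measurable_const hP

/-- the partial sum -/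
noncomputable def VP (R : ℝ) (P : E2 → ℝ) (x : E2) : ℝ := ∫ y, P y * gk R ‖x - y‖

/-- the integrand of the layer cake formula -/
noncomputable def Fl (P : E2 → ℝ) (R : ℝ) (x : E2) (y : E2) (t : ℝ) : ℝ :=
  (Iio (P y)).indicator (fun _ => gk R ‖x - y‖) t

lemma Fl_meas (hP : Measurable P) (R : ℝ) :
    Measurable fun z : (ℝ × E2) × E2 => Fl P R z.1.2 z.2 z.1.1 := by
  have h : (fun z : (ℝ × E2) × E2 => Fl P R z.1.2 z.2 z.1.1) =
      {z : (ℝ × E2) × E2 | z.1.1 < P z.2}.indicator (fun z => gk R ‖z.1.2 - z.2‖) := by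
    funext z
    unfold Fl
    by_cases hz : z.1.1 < P z.2
    · rw [indicator_of_mem (mem_Iio.2 hz), indicator_of_mem (by exact hz)]
    · rw [indicator_of_notMem (by simpa using hz), indicator_of_notMem (by exact hz)]
  rw [h]
  refine Measurable.indicator ((gk_meas R).comp (by fun_prop)) ?_
  exact measurableSet_lt (by fun_prop) (hP.comp measurable_snd)

lemma Fl_VA (hP : Measurable P) (t : ℝ) : ∫ y, Fl P R x y t = VA R (Lv P t) x := by
  rw [VA, ← integral_indicator (Lv_meas hP t)]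
  refine integral_congr_ae (Eventually.of_forall fun y => ?_)
  change Fl P R x y t = _
  unfold Fl
  by_cases hz : t < P y
  · rw [indicator_of_mem (mem_Iio.2 hz), indicator_of_mem (show y ∈ Lv P t from hz)]
  · rw [indicator_of_notMem (by simpa using hz), indicator_of_notMem (show y ∉ Lv P t from hz)]

/-- the constant of the majorant -/
noncomputable def cst (R : ℝ) : ℝ := 6 * π * R ^ 2 + 6 * √R

lemma cst_mono {R S : ℝ} (hR : 0 ≤ R) (h : R ≤ S) : cst R ≤ cst S := by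
  unfold cst
  have : √R ≤ √S := sqrt_le_sqrt h
  gcongr

lemma cst_nonneg (R : ℝ) : 0 ≤ cst R := by unfold cst; positivity

lemma gk_dom (hR : 0 < R) {r : ℝ} (hr : 0 ≤ r) : |gk R r| ≤ cst R * (1 + r) ^ (-(3 / 2) : ℝ) := by
  have h2 : (1 / 3 : ℝ) ≤ 2 ^ (-(3 / 2) : ℝ) := by
    rw [rpow_neg (by norm_num), one_div]
    apply inv_anti₀ (by positivity)
    have : (2 : ℝ) ^ (3 / 2 : ℝ) = √8 := by
      rw [sqrt_eq_rpow, show (8 : ℝ) = 2 ^ (3 : ℝ) by norm_num, ← rpow_mul (by norm_num)]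
      norm_num
    rw [this, sqrt_le_left (by norm_num)]
    norm_num
  rcases le_or_gt r 1 with h | h
  · refine (gk_le_const hR r).trans ?_
    have h1 : (2 : ℝ) ^ (-(3 / 2) : ℝ) ≤ (1 + r) ^ (-(3 / 2) : ℝ) :=
      rpow_le_rpow_of_nonpos (by positivity) (by linarith) (by norm_num)
    calc 2 * π * R ^ 2 = 6 * π * R ^ 2 * (1 / 3) := by ring
      _ ≤ cst R * (1 + r) ^ (-(3 / 2) : ℝ) := by
        refine mul_le_mul ?_ (h2.trans h1) (by norm_num) (cst_nonneg R)
        unfold cst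
        have := sqrt_nonneg R
        linarith
  · have hr0 : 0 < r := by linarith
    refine (gk_le hR hr0).trans ?_
    have h1 : (2 * r) ^ (-(3 / 2) : ℝ) ≤ (1 + r) ^ (-(3 / 2) : ℝ) :=
      rpow_le_rpow_of_nonpos (by positivity) (by linarith) (by norm_num)
    have h3 : r ^ (-(3 / 2) : ℝ) = 1 / (r * √r) := by
      rw [rpow_neg hr0.le, one_div, sqrt_eq_rpow]
      congr 1
      nth_rw 2 [← rpow_one r]
      rw [← rpow_add hr0]; norm_num
    have h4 : 1 / 3 * (1 / (r * √r)) ≤ (1 + r) ^ (-(3 / 2) : ℝ) := by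
      refine le_trans ?_ h1
      rw [mul_rpow (by norm_num) hr0.le, h3]
      gcongr
    calc 2 * √R / (r * √r) = 6 * √R * (1 / 3 * (1 / (r * √r))) := by ring
      _ ≤ cst R * (1 + r) ^ (-(3 / 2) : ℝ) := by
        refine mul_le_mul ?_ h4 (by positivity) (cst_nonneg R)
        unfold cst
        have : 0 ≤ 6 * π * R ^ 2 := by positivity
        linarith

lemma dom_memLp (x : E2) : MemLp (fun y : E2 => (1 + ‖x - y‖) ^ (-(3 / 2) : ℝ)) 2 volume := by
  have hm : AEStronglyMeasurable (fun y : E2 => (1 + ‖x - y‖) ^ (-(3 / 2) : ℝ)) volume := by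
    have : Measurable (fun y : E2 => (1 + ‖x - y‖) ^ (-(3 / 2) : ℝ)) := by fun_prop
    exact this.aestronglyMeasurable
  rw [memLp_two_iff_integrable_sq hm]
  have h : Integrable (fun y : E2 => (1 + ‖y‖) ^ (-3 : ℝ)) :=
    integrable_one_add_norm (by simp; norm_num)
  refine (h.comp_sub_left x).congr (Eventually.of_forall fun y => ?_)
  simp only
  rw [← rpow_natCast, ← rpow_mul (by positivity)]
  norm_num

lemma gk_memLp (hR : 0 < R) (x : E2) : MemLp (fun y : E2 => gk R ‖x - y‖) 2 volume := by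
  refine MemLp.mono ((dom_memLp x).const_mul (cst R)) ?_ (Eventually.of_forall fun y => ?_)
  · exact ((gk_meas R).comp (by fun_prop : Measurable fun y : E2 => ‖x - y‖)).aestronglyMeasurable
  · rw [Real.norm_eq_abs]
    exact (gk_dom hR (norm_nonneg _)).trans (le_abs_self _)

lemma rat_sup {F : ℝ → ℝ} (hF : ∀ R, 0 < R → ContinuousAt F R) {I : ℝ≥0∞}
    (h : ∀ q : ℚ, 0 < q → ‖F q‖ₑ ≤ I) {R : ℝ} (hR : 0 < R) : ‖F R‖ₑ ≤ I := by
  have h1 : R ∈ closure (Ioi (0 : ℝ) ∩ range ((↑) : ℚ → ℝ)) :=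
    (Rat.denseRange_cast.open_subset_closure_inter isOpen_Ioi) hR
  obtain ⟨u, hu, hul⟩ := mem_closure_iff_seq_limit.1 h1
  refine le_of_tendsto' (((hF R hR).tendsto.comp hul).enorm) fun n => ?_
  obtain ⟨hu0, q, hq⟩ := hu n
  simp only [Function.comp]
  rw [← hq]
  refine h q ?_
  have : (0 : ℝ) < u n := hu0
  rw [← hq] at this
  exact_mod_cast this

lemma lc_repr (hR : 0 < R) (hPm : Measurable P) (hP0 : ∀ y, 0 ≤ P y) (hPi : MemLp P 2) (x : E2) :
    VP R P x = ∫ t in Ioi (0 : ℝ), VA R (Lv P t) x := by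
  have h1 : VP R P x = ∫ y, ∫ t in Ioi (0 : ℝ), Fl P R x y t := by
    unfold VP
    refine integral_congr_ae (Eventually.of_forall fun y => ?_)
    simp only [Fl]
    rw [integral_indicator measurableSet_Iio, Measure.restrict_restrict measurableSet_Iio,
      setIntegral_const, smul_eq_mul, measureReal_def]
    have e1 : Iio (P y) ∩ Ioi (0 : ℝ) = Ioo 0 (P y) := by ext t; simp [and_comm]
    rw [e1, Real.volume_Ioo, sub_zero, ENNReal.toReal_ofReal (hP0 y)]
  have hmeas : Measurable fun z : E2 × ℝ => Fl P R x z.1 z.2 :=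
    (Fl_meas hPm R).comp (by fun_prop : Measurable fun z : E2 × ℝ => ((z.2, x), z.1))
  rw [h1, integral_integral_swap]
  · exact setIntegral_congr_fun measurableSet_Ioi fun t _ => Fl_VA hPm t
  · refine ⟨hmeas.aestronglyMeasurable, ?_⟩
    rw [HasFiniteIntegral, lintegral_prod _ (by
      exact (hmeas.enorm).aemeasurable)]
    have h2 : ∀ y, ∫⁻ t in Ioi (0 : ℝ), ‖Function.uncurry (Fl P R x) (y, t)‖ₑ
        ≤ ‖P y * gk R ‖x - y‖‖ₑ := by
      intro y
      calc ∫⁻ t in Ioi (0 : ℝ), ‖Function.uncurry (Fl P R x) (y, t)‖ₑ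
          = ∫⁻ t in Ioi (0 : ℝ), (Iio (P y)).indicator (fun _ => ‖gk R ‖x - y‖‖ₑ) t := by
            refine lintegral_congr fun t => ?_
            simp only [Function.uncurry, Fl]
            rw [enorm_indicator_eq_indicator_enorm]
        _ = ‖gk R ‖x - y‖‖ₑ * ENNReal.ofReal (P y) := by
            rw [lintegral_indicator measurableSet_Iio, Measure.restrict_restrict measurableSet_Iio,
              setLIntegral_const]
            have e1 : Iio (P y) ∩ Ioi (0 : ℝ) = Ioo 0 (P y) := by ext t; simp [and_comm]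
            rw [e1, Real.volume_Ioo, sub_zero]
        _ ≤ _ := by
            rw [enorm_mul, mul_comm, Real.enorm_eq_ofReal (hP0 y)]
    refine (lintegral_mono h2).trans_lt ?_
    exact (hPi.integrable_mul (gk_memLp hR x)).2

/-- the maximal function over rational radii -/
noncomputable def UU (P : E2 → ℝ) (t : ℝ) (x : E2) : ℝ≥0∞ :=
  ⨆ q : {q : ℚ // 0 < q}, ‖VA (q : ℚ) (Lv P t) x‖ₑ

lemma UU_meas (hP : Measurable P) : Measurable fun z : ℝ × E2 => UU P z.1 z.2 := by
  unfold UU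
  refine Measurable.iSup fun q => ?_
  refine Measurable.enorm ?_
  have h := (Fl_meas hP ((q : ℚ) : ℝ)).stronglyMeasurable.integral_prod_right' (ν := volume)
  have e : (fun z : ℝ × E2 => VA (q : ℚ) (Lv P z.1) z.2) =
      fun z : ℝ × E2 => ∫ y, Fl P (q : ℚ) z.2 y z.1 := funext fun z => (Fl_VA hP z.1).symm
  rw [e]
  exact h.measurable

lemma UU_le_MA (P : E2 → ℝ) (t : ℝ) (x : E2) : UU P t x ≤ MA (Lv P t) x := by
  unfold UU MA
  refine iSup_le fun q => ?_
  exact le_iSup₂ (f := fun (R : ℝ) (_ : 0 < R) => ‖VA R (Lv P t) x‖ₑ) ((q : ℚ) : ℝ)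
    (by exact_mod_cast q.2)

lemma gk_cont_R (r : ℝ) : Continuous fun R : ℝ => gk R r := by
  unfold gk
  exact (continuous_id.mul (j1_cont.comp (by fun_prop))).div_const _

lemma VP_cont (hPi : MemLp P 2) (x : E2) (hR : 0 < R) :
    ContinuousAt (fun R : ℝ => VP R P x) R := by
  unfold VP
  refine continuousAt_of_dominated
    (bound := fun y => |P y| * (cst (R + 1) * (1 + ‖x - y‖) ^ (-(3 / 2) : ℝ))) ?_ ?_
    (hPi.abs.integrable_mul ((dom_memLp x).const_mul _)) ?_
  · refine Eventually.of_forall fun R => hPi.aestronglyMeasurable.mul ?_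
    exact ((gk_meas R).comp (by fun_prop : Measurable fun y : E2 => ‖x - y‖)).aestronglyMeasurable
  · filter_upwards [Ioo_mem_nhds hR (by linarith : R < R + 1)] with S hS
    refine Eventually.of_forall fun y => ?_
    rw [norm_mul, Real.norm_eq_abs, Real.norm_eq_abs]
    refine mul_le_mul_of_nonneg_left ((gk_dom hS.1 (norm_nonneg _)).trans ?_) (abs_nonneg _)
    have := cst_mono hS.1.le hS.2.le
    gcongr
  · exact Eventually.of_forall fun y => ((gk_cont_R _).continuousAt).const_mul _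

lemma VP_le (hPm : Measurable P) (hP0 : ∀ y, 0 ≤ P y) (hPi : MemLp P 2) (x : E2) {R : ℝ}
    (hR : 0 < R) : ‖VP R P x‖ₑ ≤ ∫⁻ t in Ioi (0 : ℝ), UU P t x := by
  refine rat_sup (F := fun R => VP R P x) (fun R hR => VP_cont hPi x hR) (fun q hq => ?_) hR
  have hq0' : (0 : ℝ) < q := by exact_mod_cast hq
  rw [lc_repr hq0' hPm hP0 hPi x]
  refine (enorm_integral_le_lintegral_enorm _).trans (lintegral_mono fun t => ?_)
  exact le_iSup (fun q : {q : ℚ // 0 < q} => ‖VA (q : ℚ) (Lv P t) x‖ₑ) ⟨q, hq⟩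

/-- the constant -/
noncomputable def kC (N : ℕ) : ℝ≥0∞ :=
  (ENNReal.ofReal (2 * N ^ 2 + 1)) ^ 2 * (81 * kN N)

lemma kC_ne_top (N : ℕ) : kC N ≠ ⊤ :=
  ENNReal.mul_ne_top (ENNReal.pow_ne_top ENNReal.ofReal_ne_top)
    (ENNReal.mul_ne_top (by norm_num) (kN_ne_top N))

theorem main_sq {N : ℕ} (hPm : Measurable P) (hP0 : ∀ y, 0 ≤ P y)
    (hN : ∀ t, 0 < t → Nice N (Lv P t)) :
    ∫⁻ x, (∫⁻ t in Ioi (0 : ℝ), UU P t x) ^ 2 ≤ kC N * ∫⁻ y, ENNReal.ofReal (P y) ^ 2 := by
  set B : ℝ≥0∞ := ENNReal.ofReal (2 * N ^ 2 + 1) with hB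
  have hB1 : 1 ≤ B := by
    rw [hB, ENNReal.one_le_ofReal]; nlinarith [sq_nonneg (N : ℝ)]
  have hBt : B ≠ ⊤ := ENNReal.ofReal_ne_top
  have hB0 : B ≠ 0 := (lt_of_lt_of_le one_pos hB1).ne'
  have hUB : ∀ t ∈ Ioi (0 : ℝ), ∀ x, UU P t x ≤ B := by
    intro t ht x
    refine iSup_le fun q => ?_
    rw [← ofReal_norm, Real.norm_eq_abs, hB]
    refine ENNReal.ofReal_le_ofReal ?_
    have := nice_bound (Lv_meas hPm t) (hN t ht) (R := ((q : ℚ) : ℝ)) (by exact_mod_cast q.2) x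
    linarith
  have h1 : ∀ x, (∫⁻ t in Ioi (0 : ℝ), UU P t x) ^ 2 ≤
      B ^ 2 * (81 * ∫⁻ t in Ioi (0 : ℝ), ENNReal.ofReal t * UU P t x ^ (15 / 8 : ℝ)) := by
    intro x
    set V : ℝ → ℝ≥0∞ := fun t => (Ioi (0 : ℝ)).indicator (fun t => UU P t x / B) t with hV
    have hV1 : ∀ t, V t ≤ 1 := by
      intro t
      rw [hV]
      simp only
      by_cases ht : t ∈ Ioi (0 : ℝ)
      · rw [indicator_of_mem ht]
        exact ENNReal.div_le_of_le_mul (by rw [one_mul]; exact hUB t ht x)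
      · rw [indicator_of_notMem ht]; exact zero_le_one
    have e1 : ∫⁻ t in Ioi (0 : ℝ), UU P t x = B * ∫⁻ t in Ioi (0 : ℝ), V t := by
      rw [← lintegral_const_mul' _ _ hBt]
      refine setLIntegral_congr_fun measurableSet_Ioi fun t ht => ?_
      rw [hV]
      simp only
      rw [indicator_of_mem ht, ENNReal.mul_div_cancel hB0 hBt]
    rw [e1, mul_pow]
    gcongr
    refine (sq_int_le hV1).trans ?_
    gcongr 81 * ?_
    refine setLIntegral_mono' measurableSet_Ioi fun t ht => ?_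
    gcongr
    rw [hV]
    simp only
    rw [indicator_of_mem ht]
    exact ENNReal.div_le_of_le_mul (le_mul_of_one_le_right zero_le hB1)
  have hm : Measurable fun z : E2 × ℝ => ENNReal.ofReal z.2 * UU P z.2 z.1 ^ (15 / 8 : ℝ) := by
    have := (UU_meas hPm).comp measurable_swap (α := E2 × ℝ)
    exact (ENNReal.measurable_ofReal.comp measurable_snd).mul (this.pow_const _)
  calc ∫⁻ x, (∫⁻ t in Ioi (0 : ℝ), UU P t x) ^ 2
      ≤ ∫⁻ x, B ^ 2 * (81 * ∫⁻ t in Ioi (0 : ℝ), ENNReal.ofReal t * UU P t x ^ (15 / 8 : ℝ)) :=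
        lintegral_mono h1
    _ = B ^ 2 * (81 * ∫⁻ x, ∫⁻ t in Ioi (0 : ℝ), ENNReal.ofReal t * UU P t x ^ (15 / 8 : ℝ)) := by
        rw [lintegral_const_mul' _ _ (ENNReal.pow_ne_top hBt),
          lintegral_const_mul' _ _ (by norm_num)]
    _ = B ^ 2 * (81 * ∫⁻ t in Ioi (0 : ℝ), ∫⁻ x, ENNReal.ofReal t * UU P t x ^ (15 / 8 : ℝ)) := by
        rw [lintegral_lintegral_swap (f := fun x t => ENNReal.ofReal t * UU P t x ^ (15 / 8 : ℝ))
          hm.aemeasurable]
    _ ≤ B ^ 2 * (81 * ∫⁻ t in Ioi (0 : ℝ), kN N * (volume {a | t < P a} *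
          ENNReal.ofReal (t ^ ((2 : ℝ) - 1)))) := by
        gcongr B ^ 2 * (81 * ?_)
        refine setLIntegral_mono' measurableSet_Ioi fun t ht => ?_
        rw [lintegral_const_mul' _ _ ENNReal.ofReal_ne_top]
        have h2 : ∫⁻ x, UU P t x ^ (15 / 8 : ℝ) ≤ kN N * volume (Lv P t) :=
          (lintegral_mono fun x => ENNReal.rpow_le_rpow (UU_le_MA P t x) (by norm_num)).trans
            (nice_int (Lv_meas hPm t) (hN t ht))
        have e3 : t ^ ((2 : ℝ) - 1) = t := by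
          rw [show (2 : ℝ) - 1 = 1 by norm_num, rpow_one]
        rw [e3]
        calc ENNReal.ofReal t * ∫⁻ x, UU P t x ^ (15 / 8 : ℝ)
            ≤ ENNReal.ofReal t * (kN N * volume (Lv P t)) := by gcongr
          _ = kN N * (volume {a | t < P a} * ENNReal.ofReal t) := by
            rw [Lv]; ring
    _ = B ^ 2 * (81 * (kN N * ∫⁻ t in Ioi (0 : ℝ), volume {a | t < P a} *
          ENNReal.ofReal (t ^ ((2 : ℝ) - 1)))) := by
        rw [lintegral_const_mul' _ _ (kN_ne_top N)]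
    _ ≤ B ^ 2 * (81 * (kN N * ∫⁻ y, ENNReal.ofReal (P y) ^ 2)) := by
        gcongr B ^ 2 * (81 * (kN N * ?_))
        have h3 := lintegral_rpow_eq_lintegral_meas_lt_mul (volume : Measure E2)
          (Eventually.of_forall hP0) hPm.aemeasurable (p := 2) (by norm_num)
        have h4 : ∫⁻ y, ENNReal.ofReal (P y) ^ 2 = ∫⁻ y, ENNReal.ofReal (P y ^ (2 : ℝ)) := by
          refine lintegral_congr fun y => ?_
          rw [← ENNReal.ofReal_pow (hP0 y), ← rpow_natCast]
          norm_num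
        rw [h4, h3]
        refine le_mul_of_one_le_left zero_le ?_
        rw [ENNReal.one_le_ofReal]; norm_num
    _ = kC N * ∫⁻ y, ENNReal.ofReal (P y) ^ 2 := by rw [kC]; ring

end Pool.Agent.Helper854_QC
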