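import Mathlib
import Pool.Agent.Helper854_QC.H

/-! The partial sums of `L²` functions. -/

set_option autoImplicit false

open MeasureTheory Real Set Filter Topology FourierTransform
open scoped ENNReal NNReal RealInnerProductSpace ComplexConjugate

namespace Pool.Agent.Helper854_QC

/-- `L²` of the plane -/
noncomputable abbrev L2P := Lp ℂ 2 (volume : Measure E2)

lemma cont_pair {h : E2 → ℂ} (hh : MemLp h 2 volume) :
    Continuous fun f : L2P => ∫ y, h y * f y := by
  have hk : MemLp (fun y => conj (h y)) 2 volume := hh.star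
  have h1 : Continuous fun f : L2P => (inner ℂ hk.toLp f : ℂ) := continuous_const.inner continuous_id
  refine h1.congr fun f => ?_
  rw [L2.inner_def]
  refine integral_congr_ae ?_
  filter_upwards [hk.coeFn_toLp] with y hy
  rw [hy, RCLike.inner_apply, Complex.conj_conj, mul_comm]

/-- the exponential -/
noncomputable def ex (x ξ : E2) : ℂ := Complex.exp (2 * π * Complex.I * ((⟪x, ξ⟫ : ℝ) : ℂ))

lemma ex_norm (x ξ : E2) : ‖ex x ξ‖ = 1 := by
  rw [ex, show 2 * (π : ℂ) * Complex.I * ((⟪x, ξ⟫ : ℝ) : ℂ)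
        = ((2 * π * ⟪x, ξ⟫ : ℝ) : ℂ) * Complex.I by push_cast; ring]
  exact Complex.norm_exp_ofReal_mul_I _

lemma ex_cont : Continuous fun z : E2 × E2 => ex z.1 z.2 := by unfold ex; fun_prop

/-- the disc partial sum -/
noncomputable def SS (f : L2P) (R : ℝ) (x : E2) : ℂ :=
  ∫ ξ in Metric.closedBall (0 : E2) R, ex x ξ * (𝓕 f : L2P) ξ

lemma ind_memLp (R : ℝ) (x : E2) :
    MemLp ((Metric.closedBall (0 : E2) R).indicator (ex x)) 2 volume := by
  rw [memLp_indicator_iff_restrict Metric.isClosed_closedBall.measurableSet]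
  have : IsFiniteMeasure ((volume : Measure E2).restrict (Metric.closedBall (0 : E2) R)) :=
    ⟨by rw [Measure.restrict_apply_univ]; exact Metric.isBounded_closedBall.measure_lt_top⟩
  refine MemLp.of_bound ?_ 1 (Eventually.of_forall fun ξ => (ex_norm x ξ).le)
  exact (ex_cont.comp (by fun_prop : Continuous fun ξ : E2 => (x, ξ))).aestronglyMeasurable

lemma SS_cont (R : ℝ) (x : E2) : Continuous fun f : L2P => SS f R x := by
  have h1 := (cont_pair (ind_memLp R x)).comp (Lp.fourierTransformₗᵢ E2 ℂ).continuous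
  refine h1.congr fun f => ?_
  simp only [Function.comp, SS]
  rw [← integral_indicator Metric.isClosed_closedBall.measurableSet]
  refine integral_congr_ae (Eventually.of_forall fun ξ => ?_)
  by_cases h : ξ ∈ Metric.closedBall (0 : E2) R
  · simp only [indicator_of_mem h]; rfl
  · simp only [indicator_of_notMem h, zero_mul]

/-- the kernel form of the partial sum -/
noncomputable def SK (f : L2P) (R : ℝ) (x : E2) : ℂ := ∫ y, ((gk R ‖x - y‖ : ℝ) : ℂ) * f y

lemma gkC_memLp {R : ℝ} (hR : 0 < R) (x : E2) :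
    MemLp (fun y : E2 => ((gk R ‖x - y‖ : ℝ) : ℂ)) 2 volume :=
  (gk_memLp hR x).ofReal

lemma schwartz_eq {R : ℝ} (hR : 0 < R) (x : E2) (g : SchwartzMap E2 ℂ) :
    SS (g.toLp 2) R x = SK (g.toLp 2) R x := by
  have hgi : Integrable (g : E2 → ℂ) := g.integrable
  have e1 : SS (g.toLp 2) R x = ∫ ξ in Metric.closedBall (0 : E2) R, ∫ y, ex (x - y) ξ * g y := by
    unfold SS
    refine setIntegral_congr_ae Metric.isClosed_closedBall.measurableSet ?_
    have h1 : ((𝓕 (g.toLp 2 : L2P) : L2P) : E2 → ℂ) =ᵐ[volume] (𝓕 g : SchwartzMap E2 ℂ) := by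
      rw [SchwartzMap.toLp_fourier_eq]
      exact SchwartzMap.coeFn_toLp _ _ _
    filter_upwards [h1] with ξ hξ _
    rw [hξ, SchwartzMap.fourier_coe, Real.fourier_eq', ← integral_const_mul]
    refine integral_congr_ae (Eventually.of_forall fun y => ?_)
    simp only
    rw [smul_eq_mul, ← mul_assoc, ex, ex, ← Complex.exp_add, inner_sub_left]
    congr 2
    push_cast
    ring
  have hint : Integrable (Function.uncurry fun (ξ y : E2) => ex (x - y) ξ * g y)
      ((volume.restrict (Metric.closedBall (0 : E2) R)).prod volume) := by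
    have : IsFiniteMeasure ((volume : Measure E2).restrict (Metric.closedBall (0 : E2) R)) :=
      ⟨by rw [Measure.restrict_apply_univ]; exact Metric.isBounded_closedBall.measure_lt_top⟩
    have h1 : Integrable (fun z : E2 × E2 => g z.2)
        ((volume.restrict (Metric.closedBall (0 : E2) R)).prod volume) := hgi.comp_snd _
    refine h1.bdd_mul (c := 1) ?_ (Eventually.of_forall fun z => (ex_norm _ _).le)
    exact (ex_cont.comp (by fun_prop : Continuous fun z : E2 × E2 => (x - z.2, z.1))).aestronglyMeasurable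
  rw [e1, integral_integral_swap hint, SK]
  have h2 : (g.toLp 2 : L2P) =ᵐ[volume] (g : E2 → ℂ) := SchwartzMap.coeFn_toLp _ _ _
  have h3 : ∀ᵐ y : E2, y ≠ x := by
    rw [ae_iff]; simp
  refine integral_congr_ae ?_
  filter_upwards [h2, h3] with y hy hyx
  rw [hy, integral_mul_const, ← Dk_eq hR (sub_ne_zero.2 (Ne.symm hyx))]
  rfl

theorem SS_eq {R : ℝ} (hR : 0 < R) (f : L2P) (x : E2) : SS f R x = SK f R x := by
  have hd : DenseRange (SchwartzMap.toLpCLM ℂ (E := E2) ℂ 2 volume) :=
    SchwartzMap.denseRange_toLpCLM ENNReal.ofNat_ne_top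
  have h := hd.equalizer (SS_cont R x) (cont_pair (gkC_memLp hR x)) (by
    funext g
    exact schwartz_eq hR x g)
  exact congrFun h f

end Pool.Agent.Helper854_QC
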