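import Mathlib
import Pool.Agent.Helper854_QC.Fou

/-! Existence of the limits as `R → ∞`. -/

set_option autoImplicit false

open MeasureTheory Real Set Filter Topology
open scoped ENNReal NNReal RealInnerProductSpace

namespace Pool.Agent.Helper854_QC

variable {R : ℝ} {A : Set E2} {x : E2} {N : ℕ}

/-- the unit vectors -/
noncomputable def vv (b : OrthonormalBasis (Fin 2) ℝ E2) (θ : ℝ) : E2 :=
  cos θ • b 0 + sin θ • b 1

lemma vv_ne (b : OrthonormalBasis (Fin 2) ℝ E2) (θ : ℝ) : vv b θ ≠ 0 := by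
  intro h0
  have h1 := norm_sq_coord b (vv b θ)
  have i0 : ⟪b 0, vv b θ⟫ = cos θ := by
    rw [vv, inner_add_right, real_inner_smul_right, real_inner_smul_right,
      real_inner_self_eq_norm_sq, b.norm_eq_one, b.inner_eq_zero (by decide)]
    ring
  have i1 : ⟪b 1, vv b θ⟫ = sin θ := by
    rw [vv, inner_add_right, real_inner_smul_right, real_inner_smul_right,
      real_inner_self_eq_norm_sq, b.norm_eq_one, b.inner_eq_zero (by decide)]
    ring
  rw [i0, i1, h0, norm_zero] at h1
  have := sin_sq_add_cos_sq θ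
  nlinarith

/-- the ray integral -/
noncomputable def psi (b : OrthonormalBasis (Fin 2) ℝ E2) (R : ℝ) (A : Set E2) (x : E2)
    (θ : ℝ) : ℝ := ∫ r in {s : ℝ | x + s • vv b θ ∈ A} ∩ Ioi 0, R * j1 (2 * π * R * r)

lemma VA_polar (b : OrthonormalBasis (Fin 2) ℝ E2) (hR : 0 < R) (hA : MeasurableSet A)
    (hf : volume A < ⊤) : IntegrableOn (psi b R A x) (Ioo (-π) π) ∧
      VA R A x = ∫ θ in Ioo (-π) π, psi b R A x θ := by
  have hint : IntegrableOn (fun p : ℝ × ℝ => p.1 • Fc b R A x (polarCoord.symm p))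
      polarCoord.target := by
    have hmeas : Measurable fun p : ℝ × ℝ => p.1 • Fc b R A x (polarCoord.symm p) :=
      measurable_fst.smul ((Fc_meas b hA).comp continuous_polarCoord_symm.measurable)
    refine ⟨hmeas.aestronglyMeasurable, ?_⟩
    have h1 := lintegral_comp_polarCoord_symm (fun p => ‖Fc b R A x p‖ₑ)
    have h2 : ∫⁻ p in polarCoord.target, ‖p.1 • Fc b R A x (polarCoord.symm p)‖ₑ
        = ∫⁻ p, ‖Fc b R A x p‖ₑ := by
      rw [← h1]
      refine setLIntegral_congr_fun polarCoord.open_target.measurableSet fun p hp => ?_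
      have hp0 : 0 < p.1 := hp.1
      rw [smul_eq_mul, enorm_mul, Real.enorm_eq_ofReal hp0.le, smul_eq_mul]
    rw [HasFiniteIntegral, h2]
    exact (Fc_int b hR hA hf).2
  have e1 : polarCoord.target = Ioi (0 : ℝ) ×ˢ Ioo (-π) π := rfl
  rw [e1, IntegrableOn, Measure.volume_eq_prod, ← Measure.prod_restrict] at hint
  have e2 : ∀ θ, ∫ r in Ioi (0 : ℝ), (r, θ).1 • Fc b R A x (polarCoord.symm (r, θ))
      = psi b R A x θ := by
    intro θ
    have hTm : MeasurableSet {s : ℝ | x + s • vv b θ ∈ A} :=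
      hA.preimage (by fun_prop : Measurable fun s : ℝ => x + s • vv b θ)
    rw [psi, inter_comm, ← setIntegral_indicator hTm]
    refine setIntegral_congr_fun measurableSet_Ioi fun r hr => ?_
    have hr0 : 0 < r := hr
    simp only [polarCoord_symm_apply]
    unfold Fc
    have hmem : x + (r * cos θ) • b 0 + (r * sin θ) • b 1 = x + r • vv b θ := by
      rw [vv, smul_add, smul_smul, smul_smul, add_assoc]
    by_cases h : x + r • vv b θ ∈ A
    · rw [indicator_of_mem (by rw [mem_ofPred_eq]; simp only; rw [hmem]; exact h),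
        indicator_of_mem (s := {s : ℝ | x + s • vv b θ ∈ A}) h]
      have : √((r * cos θ) ^ 2 + (r * sin θ) ^ 2) = r := by
        rw [show (r * cos θ) ^ 2 + (r * sin θ) ^ 2 = r ^ 2 by
          have := sin_sq_add_cos_sq θ
          nlinarith, sqrt_sq hr0.le]
      simp only
      rw [this, gk, smul_eq_mul]
      field_simp
    · rw [indicator_of_notMem (by rw [mem_ofPred_eq]; simp only; rw [hmem]; exact h),
        indicator_of_notMem (s := {s : ℝ | x + s • vv b θ ∈ A}) h, smul_zero]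
  constructor
  · refine (hint.integral_prod_right).congr (Eventually.of_forall fun θ => ?_)
    exact e2 θ
  · rw [VA_coord b hA, ← integral_comp_polarCoord_symm, e1, Measure.volume_eq_prod,
      ← Measure.prod_restrict, integral_prod_symm _ hint]
    exact integral_congr_ae (Eventually.of_forall fun θ => e2 θ)

lemma j0_lim {a : ℝ} (ha : 0 ≤ a) : ∃ L, Tendsto (fun R : ℝ => j0 (2 * π * R * a)) atTop (𝓝 L) := by
  rcases ha.eq_or_lt with h | h
  · refine ⟨j0 0, ?_⟩
    rw [← h]; simp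
  · refine ⟨0, ?_⟩
    have h1 : Tendsto (fun R : ℝ => 3 / √(2 * π * R * a)) atTop (𝓝 0) := by
      refine tendsto_const_nhds.div_atTop (tendsto_sqrt_atTop.comp ?_)
      exact (tendsto_id.const_mul_atTop (by positivity : 0 < 2 * π)).atTop_mul_const h
    refine squeeze_zero_norm' ?_ h1
    filter_upwards [eventually_gt_atTop 0] with R hR
    rw [Real.norm_eq_abs]
    exact j0_decay (by positivity)

lemma nint_lim {T : Set ℝ} {B : ℝ} (hT : NInt N T) (hB0 : 0 ≤ B) (hB : T ⊆ Icc 0 B) :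
    ∃ L, Tendsto (fun R : ℝ => ∫ r in T, R * j1 (2 * π * R * r)) atTop (𝓝 L) := by
  obtain ⟨I, hI, hd, rfl⟩ := hT
  have hs : ∀ i, I i ⊆ Icc 0 B := fun i => (subset_iUnion I i).trans hB
  choose a b h1 h2 h3 h4 using fun i => ord_ae (hI i) hB0 (hs i)
  choose La hLa using fun i => j0_lim (h1 i)
  choose Lb hLb using fun i => j0_lim ((h1 i).trans (h2 i))
  refine ⟨∑ i, (La i - Lb i) / (2 * π), ?_⟩
  have h5 : Tendsto (fun R : ℝ => ∑ i, (j0 (2 * π * R * a i) - j0 (2 * π * R * b i)) / (2 * π))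
      atTop (𝓝 (∑ i, (La i - Lb i) / (2 * π))) :=
    tendsto_finsetSum _ fun i _ => ((hLa i).sub (hLb i)).div_const _
  refine h5.congr' ?_
  filter_upwards [eventually_gt_atTop 0] with R hR
  rw [integral_iUnion_fintype (fun i => (hI i).measurableSet) hd (fun i => by
    refine IntegrableOn.mono_set ?_ (hs i)
    exact ((continuous_const.mul (j1_cont.comp (by fun_prop))).continuousOn).integrableOn_Icc)]
  refine Finset.sum_congr rfl fun i _ => ?_
  rw [setIntegral_congr_set (h4 i), ← intervalIntegral.integral_of_le (h2 i), ray hR]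

theorem VA_lim (hA : MeasurableSet A) (hb : Bornology.IsBounded A) (hN : LineN N A) (x : E2) :
    ∃ L, Tendsto (fun R : ℝ => VA R A x) atTop (𝓝 L) := by
  have hpi := pi_pos
  have hf : volume A < ⊤ := hb.measure_lt_top
  obtain ⟨b, -⟩ := exists_basis (e := EuclideanSpace.single 0 1) (by simp)
  have hbd : ∀ θ, ∃ B, 0 ≤ B ∧ {s : ℝ | x + s • vv b θ ∈ A} ∩ Ioi 0 ⊆ Icc 0 B := by
    intro θ
    obtain ⟨B, hB0, hB⟩ := bdd_line (p := x) hb (vv_ne b θ)
    exact ⟨B, hB0, fun s hs => ⟨le_of_lt hs.2, (hB hs.1).2⟩⟩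
  choose B hB0 hB using hbd
  have hni : ∀ θ, NInt N ({s : ℝ | x + s • vv b θ ∈ A} ∩ Ioi 0) := fun θ =>
    (hN x _ (vv_ne b θ)).inter ordConnected_Ioi
  choose L hL using fun θ => nint_lim (hni θ) (hB0 θ) (hB θ)
  refine ⟨∫ θ in Ioo (-π) π, L θ, ?_⟩
  have h := tendsto_integral_filter_of_dominated_convergence (μ := volume.restrict (Ioo (-π) π))
    (l := (atTop : Filter ℝ)) (F := fun R θ => psi b R A x θ) (f := L) (fun _ => N * (1 / π))
    ?_ ?_ ?_ ?_
  · refine h.congr' ?_
    filter_upwards [eventually_gt_atTop 0] with R hR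
    exact (VA_polar b hR hA hf).2.symm
  · filter_upwards [eventually_gt_atTop 0] with R hR
    exact (VA_polar b hR hA hf).1.aestronglyMeasurable
  · filter_upwards [eventually_gt_atTop 0] with R hR
    refine Eventually.of_forall fun θ => ?_
    rw [Real.norm_eq_abs, psi]
    refine nint_bound (hni θ) (hB0 θ) (hB θ) ?_ ?_
    · exact ((continuous_const.mul (j1_cont.comp (by fun_prop))).continuousOn).integrableOn_Icc
    · intro a c _ _ _
      rw [ray hR, abs_div, abs_of_pos (by positivity : 0 < 2 * π)]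
      have h1 := j0_le_one (2 * π * R * a)
      have h2 := j0_le_one (2 * π * R * c)
      calc |j0 (2 * π * R * a) - j0 (2 * π * R * c)| / (2 * π) ≤ (1 + 1) / (2 * π) := by
            gcongr; exact (abs_sub _ _).trans (add_le_add h1 h2)
        _ = 1 / π := by field_simp; norm_num
  · exact integrable_const _
  · exact Eventually.of_forall fun θ => hL θ

lemma nice_lim {K : Set E2} (hK : MeasurableSet K) (h : Nice N K) (x : E2) :
    ∃ L, Tendsto (fun R : ℝ => VA R K x) atTop (𝓝 L) := by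
  obtain ⟨m, hm, A, ε, hA, hc⟩ := h
  choose h1 h2 h3 b c d₁ d₂ h4 h5 h6 h7 using hA
  choose L hL using fun i => VA_lim (h2 i) (h6 i).bdd (h3 i) x
  refine ⟨∑ i, ε i * L i, ?_⟩
  have h8 : Tendsto (fun R : ℝ => ∑ i, ε i * VA R (A i) x) atTop (𝓝 (∑ i, ε i * L i)) :=
    tendsto_finsetSum _ fun i _ => (hL i).const_mul _
  refine h8.congr' ?_
  filter_upwards [eventually_gt_atTop 0] with R hR
  exact (VA_comb hR hK h2 (fun i => (h6 i).bdd.measure_lt_top) hc x).symm

lemma nice_memLp {K : Set E2} (h : Nice N K) : MemLp (K.indicator (1 : E2 → ℝ)) 2 volume := by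
  obtain ⟨m, hm, A, ε, hA, hc⟩ := h
  choose h1 h2 h3 b c d₁ d₂ h4 h5 h6 h7 using hA
  have h8 : MemLp (fun y => ∑ i, ε i * (A i).indicator (1 : E2 → ℝ) y) 2 volume := by
    refine memLp_finsetSum _ fun i _ => MemLp.const_mul ?_ _
    exact memLp_indicator_const 2 (h2 i) 1 (Or.inr (h6 i).bdd.measure_lt_top.ne)
  exact h8.ae_eq (hc.mono fun y hy => hy.symm)

variable {P : E2 → ℝ}

lemma VA_meas2 (hP : Measurable P) (R : ℝ) :
    Measurable fun z : ℝ × E2 => VA R (Lv P z.1) z.2 := by
  have h := (Fl_meas hP R).stronglyMeasurable.integral_prod_right' (ν := volume)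
  have e : (fun z : ℝ × E2 => VA R (Lv P z.1) z.2) =
      fun z : ℝ × E2 => ∫ y, Fl P R z.2 y z.1 := funext fun z => (Fl_VA hP z.1).symm
  rw [e]
  exact h.measurable

lemma VP_lim (hPm : Measurable P) (hP0 : ∀ y, 0 ≤ P y) (hPi : MemLp P 2)
    (hN : ∀ t, 0 < t → Nice N (Lv P t)) (x : E2) (hx : ∫⁻ t in Ioi (0 : ℝ), UU P t x ≠ ⊤) :
    ∃ L, Tendsto (fun R : ℝ => VP R P x) atTop (𝓝 L) := by
  have hL' : ∀ t : ℝ, ∃ L, 0 < t → Tendsto (fun R : ℝ => VA R (Lv P t) x) atTop (𝓝 L) := by
    intro t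
    rcases le_or_gt t 0 with h | h
    · exact ⟨0, fun h' => absurd h' (not_lt.2 h)⟩
    · obtain ⟨L, hL⟩ := nice_lim (Lv_meas hPm t) (hN t h) x
      exact ⟨L, fun _ => hL⟩
  choose L hL using hL'
  have hUm : Measurable fun t => UU P t x :=
    (UU_meas hPm).comp (measurable_prodMk_right (y := x))
  refine ⟨∫ t in Ioi (0 : ℝ), L t, ?_⟩
  have h := tendsto_integral_filter_of_dominated_convergence (μ := volume.restrict (Ioi (0 : ℝ)))
    (l := (atTop : Filter ℝ)) (F := fun R t => VA R (Lv P t) x) (f := L)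
    (fun t => (UU P t x).toReal) ?_ ?_ ?_ ?_
  · refine h.congr' ?_
    filter_upwards [eventually_gt_atTop 0] with R hR
    exact (lc_repr hR hPm hP0 hPi x).symm
  · refine Eventually.of_forall fun R => ?_
    have h2 : Measurable fun t : ℝ => VA R (Lv P t) x :=
      (VA_meas2 hPm R).comp (measurable_prodMk_right (y := x))
    exact h2.aestronglyMeasurable
  · filter_upwards [eventually_gt_atTop 0] with R hR
    refine (ae_restrict_iff' measurableSet_Ioi).2 (Eventually.of_forall fun t ht => ?_)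
    have ht0 : 0 < t := ht
    have h1 : ‖VA R (Lv P t) x‖ₑ ≤ UU P t x := by
      refine rat_sup (F := fun R => VA R (Lv P t) x) (fun R hR => ?_) (fun q hq => ?_) hR
      · have h2 := VP_cont (nice_memLp (hN t ht0)) x hR
        refine h2.congr (Eventually.of_forall fun S => ?_)
        exact (VA_ind (Lv_meas hPm t)).symm
      · exact le_iSup (fun q : {q : ℚ // 0 < q} => ‖VA (q : ℚ) (Lv P t) x‖ₑ) ⟨q, hq⟩
    have h3 : UU P t x ≠ ⊤ := by
      refine ne_top_of_le_ne_top (ENNReal.ofReal_ne_top (r := 2 * N ^ 2)) (iSup_le fun q => ?_)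
      rw [← ofReal_norm, Real.norm_eq_abs]
      exact ENNReal.ofReal_le_ofReal
        (nice_bound (Lv_meas hPm t) (hN t ht0) (by exact_mod_cast q.2) x)
    rw [← toReal_enorm]
    exact ENNReal.toReal_mono h3 h1
  · exact integrable_toReal_of_lintegral_ne_top hUm.aemeasurable hx
  · exact (ae_restrict_iff' measurableSet_Ioi).2 (Eventually.of_forall fun t ht => hL t ht)

end Pool.Agent.Helper854_QC
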