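import Mathlib
import Pool.Agent.Helper854_QC.Idn

/-! Convex sets and their unions. -/

set_option autoImplicit false

open MeasureTheory Real Set Filter Topology
open scoped ENNReal NNReal RealInnerProductSpace

namespace Pool.Agent.Helper854_QC

lemma nint_ord {T : Set ℝ} (h : T.OrdConnected) {N : ℕ} (hN : 1 ≤ N) : NInt N T := by
  refine ⟨fun i => if (i : ℕ) = 0 then T else ∅, fun i => ?_, fun i j hij => ?_, ?_⟩
  · simp only
    split_ifs
    · exact h
    · exact ordConnected_empty
  · simp only [Function.onFun]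
    by_cases hi : (i : ℕ) = 0
    · have hj : (j : ℕ) ≠ 0 := fun hj => hij (Fin.ext (hi.trans hj.symm))
      rw [if_neg hj]; exact disjoint_bot_right
    · rw [if_neg hi]; exact disjoint_bot_left
  · ext s
    simp only [mem_iUnion]
    constructor
    · intro hs
      exact ⟨⟨0, hN⟩, by simpa using hs⟩
    · rintro ⟨i, hi⟩
      by_cases h0 : (i : ℕ) = 0
      · rwa [if_pos h0] at hi
      · rw [if_neg h0] at hi; exact absurd hi (notMem_empty _)

lemma convex_line {C : Set E2} (hC : Convex ℝ C) {N : ℕ} (hN : 1 ≤ N) : LineN N C := by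
  intro p v _
  refine nint_ord (Convex.ordConnected ?_) hN
  intro a ha b hb α β hα hβ hαβ
  rw [mem_ofPred_eq] at ha hb ⊢
  have e : p + (α • a + β • b) • v = α • (p + a • v) + β • (p + b • v) := by
    have : p = (α + β) • p := by rw [hαβ, one_smul]
    nth_rw 1 [this]
    simp only [smul_eq_mul]
    module
  rw [e]
  exact hC ha hb hα hβ hαβ

lemma mp_sub (b : OrthonormalBasis (Fin 2) ℝ E2) (c : E2) :
    MeasurePreserving (fun y => ceq b (y - c)) volume volume :=
  (ceq_mp b).comp (measurePreserving_sub_right volume c)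

lemma rect_vol {b : OrthonormalBasis (Fin 2) ℝ E2} {c : E2} {d₁ d₂ : ℝ} (hd₂ : 0 ≤ d₂) {K : Set E2} (h : InRect b c d₁ d₂ K) : volume K ≤ ENNReal.ofReal (4 * d₁ * d₂) := by
  have h2 : K ⊆ (fun y => ceq b (y - c)) ⁻¹' (Icc (-d₂) d₂ ×ˢ Icc (-d₁) d₁) := by
    intro y hy
    obtain ⟨h1, h2⟩ := h y hy
    rw [mem_preimage, ceq_apply]
    exact ⟨abs_le.1 h1, abs_le.1 h2⟩
  refine (measure_mono h2).trans ?_
  rw [(mp_sub b c).measure_preimage (measurableSet_Icc.prod measurableSet_Icc).nullMeasurableSet,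
    Measure.volume_eq_prod, Measure.prod_prod, Real.volume_Icc, Real.volume_Icc,
    ← ENNReal.ofReal_mul (by linarith)]
  exact ENNReal.ofReal_le_ofReal (by nlinarith)

lemma para_vol {l u v : ℝ} (hl : 0 < l) (hv : v ≠ 0) :
    volume {z : ℝ × ℝ | z.2 / v ∈ Icc (0 : ℝ) (1 / 2) ∧ z.1 - z.2 / v * u ∈ Icc (0 : ℝ) (l / 2)} =
      ENNReal.ofReal (l * |v| / 4) := by
  have hm : MeasurableSet {z : ℝ × ℝ | z.2 / v ∈ Icc (0 : ℝ) (1 / 2) ∧
      z.1 - z.2 / v * u ∈ Icc (0 : ℝ) (l / 2)} := by
    refine MeasurableSet.inter ?_ ?_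
    · exact measurableSet_Icc.preimage (by fun_prop : Measurable fun z : ℝ × ℝ => z.2 / v)
    · exact measurableSet_Icc.preimage (by fun_prop : Measurable fun z : ℝ × ℝ => z.1 - z.2 / v * u)
  rw [Measure.volume_eq_prod, Measure.prod_apply_symm hm]
  have h1 : ∀ t : ℝ, volume ((fun s : ℝ => (s, t)) ⁻¹' {z : ℝ × ℝ | z.2 / v ∈ Icc (0 : ℝ) (1 / 2) ∧
      z.1 - z.2 / v * u ∈ Icc (0 : ℝ) (l / 2)}) =
      {t : ℝ | t / v ∈ Icc (0 : ℝ) (1 / 2)}.indicator (fun _ => ENNReal.ofReal (l / 2)) t := by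
    intro t
    by_cases ht : t / v ∈ Icc (0 : ℝ) (1 / 2)
    · rw [indicator_of_mem (by exact ht)]
      have : (fun s : ℝ => (s, t)) ⁻¹' {z : ℝ × ℝ | z.2 / v ∈ Icc (0 : ℝ) (1 / 2) ∧
          z.1 - z.2 / v * u ∈ Icc (0 : ℝ) (l / 2)} = Icc (t / v * u) (t / v * u + l / 2) := by
        ext s
        simp only [mem_preimage, mem_ofPred_eq, mem_Icc] at ht ⊢
        constructor
        · rintro ⟨-, h1, h2⟩; constructor <;> linarith
        · rintro ⟨h1, h2⟩; exact ⟨ht, by linarith, by linarith⟩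
      rw [this, Real.volume_Icc]
      congr 1; ring
    · rw [indicator_of_notMem (by exact ht)]
      have : (fun s : ℝ => (s, t)) ⁻¹' {z : ℝ × ℝ | z.2 / v ∈ Icc (0 : ℝ) (1 / 2) ∧
          z.1 - z.2 / v * u ∈ Icc (0 : ℝ) (l / 2)} = ∅ := by
        ext s
        simp only [mem_preimage, mem_ofPred_eq, mem_empty_iff_false, iff_false, not_and]
        intro h; exact absurd h ht
      rw [this, measure_empty]
  simp_rw [h1]
  have hm2 : MeasurableSet {t : ℝ | t / v ∈ Icc (0 : ℝ) (1 / 2)} :=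
    measurableSet_Icc.preimage (by fun_prop : Measurable fun t : ℝ => t / v)
  rw [lintegral_indicator hm2, setLIntegral_const]
  have h2 : volume {t : ℝ | t / v ∈ Icc (0 : ℝ) (1 / 2)} = ENNReal.ofReal (|v| / 2) := by
    rcases lt_or_gt_of_ne hv with h | h
    · have : {t : ℝ | t / v ∈ Icc (0 : ℝ) (1 / 2)} = Icc (v / 2) 0 := by
        ext t
        simp only [mem_ofPred_eq, mem_Icc]
        rw [le_div_iff_of_neg h, div_le_iff_of_neg h]
        constructor
        · rintro ⟨h1, h2⟩; constructor <;> linarith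
        · rintro ⟨h1, h2⟩; constructor <;> linarith
      rw [this, Real.volume_Icc, abs_of_neg h]
      congr 1; ring
    · have : {t : ℝ | t / v ∈ Icc (0 : ℝ) (1 / 2)} = Icc 0 (v / 2) := by
        ext t
        simp only [mem_ofPred_eq, mem_Icc]
        rw [le_div_iff₀ h, div_le_iff₀ h]
        constructor
        · rintro ⟨h1, h2⟩; constructor <;> linarith
        · rintro ⟨h1, h2⟩; constructor <;> linarith
      rw [this, Real.volume_Icc, abs_of_pos h]
      congr 1; ring
  rw [h2, ← ENNReal.ofReal_mul (by positivity)]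
  congr 1; ring

/-- a bounded convex set fills a fixed proportion of a rectangle -/
theorem convex_rect {K : Set E2} (hK : Convex ℝ K) (hb : Bornology.IsBounded K)
    (hv : volume K ≠ 0) : ∃ (b : OrthonormalBasis (Fin 2) ℝ E2) (c : E2) (d₁ d₂ : ℝ),
      0 < d₁ ∧ d₁ ≤ d₂ ∧ InRect b c d₁ d₂ K ∧ ENNReal.ofReal (4 * d₁ * d₂) ≤ 64 * volume K := by
  set D : ℝ := Metric.diam K with hD
  have hDle : ∀ x ∈ K, ∀ y ∈ K, ‖x - y‖ ≤ D := fun x hx y hy => by
    rw [← dist_eq_norm]; exact Metric.dist_le_diam_of_mem hb hx hy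
  have hne : K.Nonempty := by
    rw [nonempty_iff_ne_empty]; rintro rfl; exact hv measure_empty
  have hD0 : 0 < D := by
    rcases (Metric.diam_nonneg (s := K)).eq_or_lt with h | h
    · exfalso
      obtain ⟨x, hx⟩ := hne
      have : K ⊆ {x} := by
        intro y hy
        have h1 := hDle y hy x hx
        rw [hD, ← h] at h1
        have h2 := norm_le_zero_iff.1 h1
        rw [mem_singleton_iff]; exact sub_eq_zero.1 h2
      exact hv (measure_mono_null this (measure_singleton x))
    · exact h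
  -- two far points
  obtain ⟨p, hp, q, hq, hpq⟩ : ∃ p ∈ K, ∃ q ∈ K, D / 2 < ‖q - p‖ := by
    by_contra hcon
    push Not at hcon
    have : D ≤ D / 2 := by
      rw [hD]
      refine Metric.diam_le_of_forall_dist_le (by rw [← hD]; positivity) fun x hx y hy => ?_
      rw [dist_eq_norm]; exact hcon y hy x hx
    linarith
  set l : ℝ := ‖q - p‖ with hl
  have hl0 : 0 < l := by linarith
  obtain ⟨b, hb0⟩ := exists_basis (e := l⁻¹ • (q - p)) (by
    rw [norm_smul, norm_inv, Real.norm_eq_abs, abs_of_pos hl0, ← hl, inv_mul_cancel₀ hl0.ne'])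
  have hin : ∀ y ∈ K, |⟪b 0, y - p⟫| ≤ D ∧ |⟪b 1, y - p⟫| ≤ D := by
    intro y hy
    have h1 := hDle y hy p hp
    have h3 := abs_real_inner_le_norm (b 0) (y - p)
    have h4 := abs_real_inner_le_norm (b 1) (y - p)
    rw [b.norm_eq_one, one_mul] at h3 h4
    exact ⟨h3.trans h1, h4.trans h1⟩
  set S : Set ℝ := (fun y => |⟪b 1, y - p⟫|) '' K with hS
  have hSb : BddAbove S := ⟨D, by rintro _ ⟨y, hy, rfl⟩; exact (hin y hy).2⟩
  have hSn : S.Nonempty := hne.image _
  set w : ℝ := sSup S with hw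
  have hwle : ∀ y ∈ K, |⟪b 1, y - p⟫| ≤ w := fun y hy => le_csSup hSb ⟨y, hy, rfl⟩
  have hwD : w ≤ D := csSup_le hSn (by rintro _ ⟨y, hy, rfl⟩; exact (hin y hy).2)
  have hw0' : 0 ≤ w := (abs_nonneg _).trans (hwle p hp)
  have hrect : InRect b p w D K := fun y hy => ⟨(hin y hy).1, hwle y hy⟩
  have hw0 : 0 < w := by
    rcases hw0'.eq_or_lt with h | h
    · exfalso
      have h1 := rect_vol hD0.le hrect
      rw [← h] at h1
      simp only [mul_zero, zero_mul, ENNReal.ofReal_zero] at h1
      exact hv (le_antisymm h1 zero_le)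
    · exact h
  obtain ⟨_, ⟨y₀, hy₀, rfl⟩, hyw⟩ := exists_lt_of_lt_csSup hSn (by rw [← hw]; linarith : w / 2 < sSup S)
  simp only at hyw
  set u : ℝ := ⟪b 0, y₀ - p⟫ with hu
  set v : ℝ := ⟪b 1, y₀ - p⟫ with hvv
  have hv0 : v ≠ 0 := by
    intro h; rw [h, abs_zero] at hyw; linarith
  have eq1 : q - p = l • b 0 := by
    rw [hb0, smul_smul, mul_inv_cancel₀ hl0.ne', one_smul]
  have eq2 : y₀ - p = u • b 0 + v • b 1 := by
    have h := b.sum_repr' (y₀ - p)
    rw [Fin.sum_univ_two] at h
    exact h.symm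
  have hsub : (fun y => ceq b (y - p)) ⁻¹' {z : ℝ × ℝ | z.2 / v ∈ Icc (0 : ℝ) (1 / 2) ∧
      z.1 - z.2 / v * u ∈ Icc (0 : ℝ) (l / 2)} ⊆ K := by
    intro y hy
    rw [mem_preimage, ceq_apply, mem_ofPred_eq] at hy
    simp only at hy
    obtain ⟨⟨hb1, hb2⟩, ha1, ha2⟩ := hy
    set s : ℝ := ⟪b 0, y - p⟫ with hs
    set t : ℝ := ⟪b 1, y - p⟫ with ht
    have eq3 : y - p = s • b 0 + t • b 1 := by
      have h := b.sum_repr' (y - p)
      rw [Fin.sum_univ_two] at h
      exact h.symm
    set β : ℝ := t / v with hβ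
    set α : ℝ := (s - β * u) / l with hα
    have ha0 : 0 ≤ α := div_nonneg ha1 hl0.le
    have ha1' : α ≤ 1 / 2 := by
      rw [hα, div_le_iff₀ hl0]; linarith
    have e : y = (1 - α - β) • p + α • q + β • y₀ := by
      have h1 : y = p + (s • b 0 + t • b 1) := by rw [← eq3]; abel
      have h2 : q = p + l • b 0 := by rw [← eq1]; abel
      have h3 : y₀ = p + (u • b 0 + v • b 1) := by rw [← eq2]; abel
      have h4 : s = α * l + β * u := by rw [hα]; field_simp; ring
      have h5 : t = β * v := by rw [hβ]; field_simp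
      rw [h1, h2, h3, h4, h5]
      module
    rw [e]
    have hc : (1 - α - β) + α + β = 1 := by ring
    have h6 : 0 ≤ 1 - α - β := by linarith
    have h7 := hK.sum_mem (t := Finset.univ) (w := ![1 - α - β, α, β]) (z := ![p, q, y₀])
      (by intro i _; fin_cases i <;> simp [ha0, hb1, h6])
      (by simp [Fin.sum_univ_three]; ring) (by intro i _; fin_cases i <;> simp [hp, hq, hy₀])
    simpa [Fin.sum_univ_three] using h7
  have hvol : ENNReal.ofReal (l * |v| / 4) ≤ volume K := by
    rw [← para_vol (u := u) hl0 hv0, ← (mp_sub b p).measure_preimage]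
    · exact measure_mono hsub
    · refine (MeasurableSet.inter ?_ ?_).nullMeasurableSet
      · exact measurableSet_Icc.preimage (by fun_prop : Measurable fun z : ℝ × ℝ => z.2 / v)
      · exact measurableSet_Icc.preimage (by fun_prop : Measurable fun z : ℝ × ℝ => z.1 - z.2 / v * u)
  refine ⟨b, p, w, D, hw0, hwD, hrect, ?_⟩
  calc ENNReal.ofReal (4 * w * D) ≤ ENNReal.ofReal (64 * (l * |v| / 4)) := by
        refine ENNReal.ofReal_le_ofReal ?_
        have h1 : w * D ≤ (2 * |v|) * (2 * l) :=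
          mul_le_mul (by linarith) (by linarith) hD0.le (by positivity)
        nlinarith
    _ = 64 * ENNReal.ofReal (l * |v| / 4) := by
        rw [ENNReal.ofReal_mul (by norm_num)]; norm_num
    _ ≤ 64 * volume K := by gcongr

lemma closure_ae {Q : Set E2} (hQ : Convex ℝ Q) : closure Q =ᵐ[volume] Q := by
  have h1 : volume (frontier Q) = 0 := Convex.addHaar_frontier volume hQ
  have h2 : ∀ᵐ y, y ∉ frontier Q := by
    rw [ae_iff]; simpa using h1
  filter_upwards [h2] with y hy
  refine propext ⟨fun h => ?_, fun h => subset_closure h⟩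
  by_contra hc
  exact hy ⟨h, fun h' => hc (interior_subset h')⟩

/-- a union of `m` bounded convex sets, up to null sets -/
def CU (m : ℕ) (K : Set E2) : Prop :=
  ∃ C : Fin m → Set E2, (∀ i, Convex ℝ (C i) ∧ Bornology.IsBounded (C i)) ∧
    K =ᵐ[volume] ⋃ i, C i

theorem cu_nice {m : ℕ} {K : Set E2} (h : CU m K) : Nice (64 + 2 ^ m) K := by
  classical
  obtain ⟨C, hC, hKC⟩ := h
  rcases eq_or_ne (volume K) 0 with hv | hv
  · refine ⟨0, Nat.zero_le _, Fin.elim0, Fin.elim0, fun i => i.elim0, ?_⟩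
    have h1 : ∀ᵐ y, y ∉ K := by rw [ae_iff]; simpa using hv
    filter_upwards [h1] with y hy
    rw [indicator_of_notMem hy]; simp
  set Q : Finset (Fin m) → Set E2 := fun s => ⋂ i ∈ s, C i with hQ
  have hQc : ∀ s, Convex ℝ (Q s) := fun s => convex_iInter₂ fun i _ => (hC i).1
  have hQK : ∀ s : Finset (Fin m), s.Nonempty → volume (Q s) ≤ volume K := by
    rintro s ⟨i, hi⟩
    rw [measure_congr hKC]
    exact measure_mono ((iInter₂_subset i hi).trans (subset_iUnion C i))
  have hQb : ∀ s : Finset (Fin m), s.Nonempty → Bornology.IsBounded (Q s) := by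
    rintro s ⟨i, hi⟩
    exact (hC i).2.subset (iInter₂_subset i hi)
  have hKt : volume K < ⊤ := by
    rw [measure_congr hKC]
    exact ((Bornology.isBounded_iUnion).2 fun i => (hC i).2).measure_lt_top
  set A : Finset (Fin m) → Set E2 := fun s =>
    if s.Nonempty ∧ volume (Q s) ≠ 0 then closure (Q s) else ∅ with hA
  set ε : Finset (Fin m) → ℝ := fun s => if s.Nonempty then (-1) ^ (s.card + 1) else 0 with hε
  set e : Fin (2 ^ m) ≃ Finset (Fin m) := (Fintype.equivFinOfCardEq (by simp)).symm with he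
  have hgood : ∀ s, |ε s| ≤ 1 ∧ MeasurableSet (A s) ∧ LineN (64 + 2 ^ m) (A s) ∧
      ∃ (b : OrthonormalBasis (Fin 2) ℝ E2) (c : E2) (d₁ d₂ : ℝ), 0 < d₁ ∧ d₁ ≤ d₂ ∧
        InRect b c d₁ d₂ (A s) ∧ ENNReal.ofReal (4 * d₁ * d₂) ≤ (64 + 2 ^ m : ℕ) * volume K := by
    intro s
    have h2m : 1 ≤ 2 ^ m := Nat.one_le_two_pow
    have hN1 : 1 ≤ 64 + 2 ^ m := by omega
    have hNN : (64 : ℝ≥0∞) ≤ ((64 + 2 ^ m : ℕ) : ℝ≥0∞) := by
      exact_mod_cast (by omega : 64 ≤ 64 + 2 ^ m)
    refine ⟨?_, ?_, ?_, ?_⟩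
    · simp only [hε]
      split_ifs
      · rw [abs_pow, abs_neg, abs_one, one_pow]
      · simp
    · simp only [hA]
      split_ifs
      · exact isClosed_closure.measurableSet
      · exact MeasurableSet.empty
    · simp only [hA]
      split_ifs
      · exact convex_line (hQc s).closure hN1
      · exact convex_line convex_empty hN1
    · by_cases hc : s.Nonempty ∧ volume (Q s) ≠ 0
      · have e1 : A s = closure (Q s) := by simp only [hA]; rw [if_pos hc]
        rw [e1]
        have hm : volume (closure (Q s)) = volume (Q s) := measure_congr (closure_ae (hQc s))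
        obtain ⟨b, c, d₁, d₂, h1, h2, h3, h4⟩ := convex_rect (hQc s).closure
          (hQb s hc.1).closure (by rw [hm]; exact hc.2)
        refine ⟨b, c, d₁, d₂, h1, h2, h3, h4.trans ?_⟩
        rw [hm]
        exact mul_le_mul' hNN (hQK s hc.1)
      · have e1 : A s = ∅ := by simp only [hA]; rw [if_neg hc]
        rw [e1]
        obtain ⟨b, -⟩ := exists_basis (e := EuclideanSpace.single 0 1) (by simp)
        have hv0 : 0 < (volume K).toReal := ENNReal.toReal_pos hv hKt.ne
        refine ⟨b, 0, √(volume K).toReal / 2, √(volume K).toReal / 2, by positivity, le_rfl,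
          fun y hy => absurd hy (notMem_empty y), ?_⟩
        have e2 : 4 * (√(volume K).toReal / 2) * (√(volume K).toReal / 2) = (volume K).toReal := by
          have := mul_self_sqrt hv0.le
          nlinarith
        rw [e2, ENNReal.ofReal_toReal hKt.ne]
        exact le_mul_of_one_le_left zero_le (le_trans (by norm_num) hNN)
  refine ⟨2 ^ m, by omega, fun i => A (e i), fun i => ε (e i), fun i => hgood (e i), ?_⟩
  · have hAQ : ∀ s : Finset (Fin m), s.Nonempty → A s =ᵐ[volume] Q s := by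
      intro s hs
      by_cases hc : volume (Q s) = 0
      · have e1 : A s = ∅ := by simp only [hA]; rw [if_neg (by tauto)]
        rw [e1]
        exact (ae_eq_empty.2 hc).symm
      · have e1 : A s = closure (Q s) := by simp only [hA]; rw [if_pos ⟨hs, hc⟩]
        rw [e1]
        exact closure_ae (hQc s)
    have hall : ∀ᵐ y, ∀ s : Finset (Fin m), s.Nonempty → (y ∈ A s ↔ y ∈ Q s) := by
      rw [ae_all_iff]
      intro s
      by_cases hs : s.Nonempty
      · filter_upwards [hAQ s hs] with y hy _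
        exact iff_of_eq hy
      · exact Eventually.of_forall fun y h => absurd h hs
    filter_upwards [hall, hKC] with y hy hyK
    have hyK' : y ∈ K ↔ y ∈ ⋃ i, C i := iff_of_eq hyK
    have h1 : K.indicator (1 : E2 → ℝ) y = (⋃ i ∈ (Finset.univ : Finset (Fin m)), C i).indicator
        (1 : E2 → ℝ) y := by
      have e3 : (⋃ i ∈ (Finset.univ : Finset (Fin m)), C i) = ⋃ i, C i := by simp
      rw [e3]
      by_cases h : y ∈ K
      · rw [indicator_of_mem h, indicator_of_mem (hyK'.1 h)]
      · rw [indicator_of_notMem h, indicator_of_notMem (fun h' => h (hyK'.2 h'))]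
    rw [h1, Finset.indicator_biUnion_eq_sum_powerset, e.sum_comp (fun s => ε s *
      (A s).indicator (1 : E2 → ℝ) y), Finset.powerset_univ, Finset.sum_filter]
    refine Finset.sum_congr rfl fun s _ => ?_
    by_cases hs : s.Nonempty
    · rw [if_pos hs]
      simp only [hε]
      rw [if_pos hs]
      have h2 := hy s hs
      by_cases h3 : y ∈ A s
      · rw [indicator_of_mem h3, indicator_of_mem (h2.1 h3)]
        simp
      · rw [indicator_of_notMem h3, indicator_of_notMem (fun h' => h3 (h2.2 h'))]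
        simp
    · rw [if_neg hs]
      simp only [hε]
      rw [if_neg hs, zero_mul]

end Pool.Agent.Helper854_QC
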