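import Mathlib
import Pool.Agent.Helper854_QC.Geo

/-! Monotonicity of the class in `N`. -/

set_option autoImplicit false

open MeasureTheory Real Set Filter Topology
open scoped ENNReal NNReal RealInnerProductSpace

namespace Pool.Agent.Helper854_QC

lemma NInt.mono {N M : ℕ} (h : N ≤ M) {T : Set ℝ} (hT : NInt N T) : NInt M T := by
  obtain ⟨I, hI, hd, rfl⟩ := hT
  refine ⟨fun j => if hj : (j : ℕ) < N then I ⟨j, hj⟩ else ∅, fun j => ?_, fun i j hij => ?_, ?_⟩
  · simp only
    split_ifs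
    · exact hI _
    · exact ordConnected_empty
  · simp only [Function.onFun]
    by_cases hi : (i : ℕ) < N
    · by_cases hj : (j : ℕ) < N
      · rw [dif_pos hi, dif_pos hj]
        refine hd fun he => hij ?_
        exact Fin.ext (by simpa using he)
      · rw [dif_neg hj]; exact disjoint_bot_right
    · rw [dif_neg hi]; exact disjoint_bot_left
  · ext s
    simp only [mem_iUnion]
    constructor
    · rintro ⟨i, hi⟩
      refine ⟨⟨i, i.2.trans_le h⟩, ?_⟩
      rw [dif_pos i.2]; exact hi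
    · rintro ⟨j, hj⟩
      by_cases hj' : (j : ℕ) < N
      · rw [dif_pos hj'] at hj; exact ⟨_, hj⟩
      · rw [dif_neg hj'] at hj; exact absurd hj (notMem_empty _)

lemma Nice.mono {N M : ℕ} (h : N ≤ M) {K : Set E2} (hK : Nice N K) : Nice M K := by
  obtain ⟨m, hm, A, ε, hA, hc⟩ := hK
  refine ⟨m, hm.trans h, A, ε, fun i => ?_, hc⟩
  obtain ⟨h1, h2, h3, b, c, d₁, d₂, h4, h5, h6, h7⟩ := hA i
  refine ⟨h1, h2, fun p v hv => (h3 p v hv).mono h, b, c, d₁, d₂, h4, h5, h6, h7.trans ?_⟩
  gcongr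

end Pool.Agent.Helper854_QC
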