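import Mathlib
import Pool.Agent.Helper854_QC.Idn

/-! Pairs `(f, G)` where `G` is the Fourier transform of `f`. -/

set_option autoImplicit false

open MeasureTheory Real Set Filter Topology FourierTransform
open scoped ENNReal NNReal RealInnerProductSpace

namespace Pool.Agent.Helper854_QC

open Pool.Agent.Helper93.Sph (ps)

theorem pair {f G : E2 → ℂ} (hf : MemLp f 2 volume) (hG : MemLp G 2 volume)
    (h : Tendsto (fun R : ℝ => ∫⁻ x, ‖ps G R x - f x‖ₑ ^ 2) atTop (𝓝 0)) :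
    ∃ F : L2P, F =ᵐ[volume] f ∧ ∀ R x, SS F R x = ps G R x := by
  set F : L2P := (Lp.fourierTransformₗᵢ E2 ℂ).symm (hG.toLp G) with hF
  have hFF : (𝓕 F : L2P) = hG.toLp G := by
    change (Lp.fourierTransformₗᵢ E2 ℂ) F = _
    rw [hF, LinearIsometryEquiv.apply_symm_apply]
  have hS : ∀ R x, SS F R x = ps G R x := by
    intro R x
    unfold SS
    refine setIntegral_congr_ae Metric.isClosed_closedBall.measurableSet ?_
    filter_upwards [hG.coeFn_toLp] with ξ hξ _
    rw [hFF, hξ]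
    rfl
  refine ⟨F, ?_, hS⟩
  -- a subsequence converges almost everywhere
  have hm : ∀ R : ℝ, AEStronglyMeasurable (fun x => ps G R x) volume := fun R =>
    (Pool.Agent.Helper93.Sph.ps_cont_x (m := 1) hG R).aestronglyMeasurable
  have h1 : Tendsto (fun R : ℝ => eLpNorm ((fun x => ps G R x) - f) 2 volume) atTop (𝓝 0) := by
    have h2 := ((ENNReal.continuous_rpow_const (y := (1 / 2 : ℝ))).tendsto 0).comp h
    rw [ENNReal.zero_rpow_of_pos (by norm_num)] at h2
    refine h2.congr fun R => ?_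
    rw [Pool.Agent.Helper854_SP.eLp2]
    rfl
  obtain ⟨u, hu, hu2⟩ := (tendstoInMeasure_of_tendsto_eLpNorm_of_ne_top (by norm_num) (by norm_num)
    hm hf.aestronglyMeasurable h1).exists_seq_tendsto_ae'
  have h3 : f =ᵐ[volume] F := ident hu (by
    filter_upwards [hu2] with x hx
    refine hx.congr fun n => ?_
    exact (hS _ _).symm)
  exact h3.symm

lemma Nice.congr {N : ℕ} {K K' : Set E2} (h : K =ᵐ[volume] K') (hK : Nice N K) : Nice N K' := by
  obtain ⟨m, hm, A, ε, hA, hc⟩ := hK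
  refine ⟨m, hm, A, ε, fun i => ?_, ?_⟩
  · rw [← measure_congr h]; exact hA i
  · filter_upwards [hc, h] with y hy hyK
    have : y ∈ K ↔ y ∈ K' := iff_of_eq hyK
    rw [← hy]
    by_cases h' : y ∈ K
    · rw [indicator_of_mem h', indicator_of_mem (this.1 h')]
    · rw [indicator_of_notMem h', indicator_of_notMem (fun h'' => h' (this.2 h''))]

lemma lv_congr {f F : E2 → ℂ} (h : F =ᵐ[volume] f) (k : ℕ) (t : ℝ) :
    ({y | t < (Complex.I ^ k * f y).re} : Set E2) =ᵐ[volume] {y | t < (Complex.I ^ k * F y).re} := by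
  filter_upwards [h] with y hy
  change (t < (Complex.I ^ k * f y).re) = (t < (Complex.I ^ k * F y).re)
  rw [hy]

theorem pair_main {N : ℕ} {f G : E2 → ℂ} (hf : MemLp f 2 volume) (hG : MemLp G 2 volume)
    (h : Tendsto (fun R : ℝ => ∫⁻ x, ‖ps G R x - f x‖ₑ ^ 2) atTop (𝓝 0)) (hN : NiceLv N f) :
    ∫⁻ x, (⨆ (R : ℝ) (_ : 0 < R), ‖ps G R x‖ₑ) ^ 2 ≤ 16 * kC N * ∫⁻ y, ‖f y‖ₑ ^ 2 ∧
      ∀ᵐ x, Tendsto (fun R : ℝ => ps G R x) atTop (𝓝 (f x)) := by
  obtain ⟨F, hF, hS⟩ := pair hf hG h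
  have hN' : NiceLv N F := fun k t ht => (hN k t ht).congr (lv_congr hF k t)
  have h1 := SS_max hN'
  have h2 := SS_conv hN'
  simp only [hS] at h1 h2
  constructor
  · refine h1.trans (le_of_eq ?_)
    congr 1
    refine lintegral_congr_ae ?_
    filter_upwards [hF] with y hy
    rw [hy]
  · filter_upwards [h2, hF] with x hx hx2
    rwa [← hx2]

end Pool.Agent.Helper854_QC
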